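import Pool.Agent.Helper84.BD.Means

/-!
# MP_1609c3_nt: Weyl sums of `n α + g(n β)`
-/

set_option autoImplicit false

namespace Pool.Agent.Helper84.BD

open Filter Topology MeasureTheory Finset

lemma four_coe (l : ℤ) (x : ℝ) :
    (fourier l (x : T1) : ℂ) = Complex.exp (2 * Real.pi * Complex.I * (l * x : ℝ)) := by
  rw [fourier_coe_apply]
  congr 1
  push_cast
  ring

lemma four_norm (l : ℤ) (x : T1) : ‖(fourier l x : ℂ)‖ = 1 := by
  rw [fourier_apply]
  exact Circle.norm_coe _

lemma four_add (l : ℤ) (x y : T1) : (fourier l (x + y) : ℂ) = fourier l x * fourier l y := by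
  simp only [fourier_apply, smul_add, AddCircle.toCircle_add, Circle.coe_mul]

lemma four_nmul (l : ℤ) (x : ℝ) (n : ℕ) :
    (fourier l ((n * x : ℝ) : T1) : ℂ) = fourier l (x : T1) ^ n := by
  rw [four_coe, four_coe, ← Complex.exp_nat_mul]
  congr 1
  push_cast
  ring

lemma exp_int_iff (z : ℝ) : Complex.exp (2 * Real.pi * Complex.I * z) = 1 ↔ ∃ p : ℤ, z = p := by
  rw [Complex.exp_eq_one_iff]
  constructor
  · rintro ⟨n, hn⟩
    refine ⟨n, ?_⟩
    have h1 : (2 * Real.pi * Complex.I : ℂ) * z = (2 * Real.pi * Complex.I) * (n : ℂ) := by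
      rw [hn]; ring
    have h2 := mul_left_cancel₀ Complex.two_pi_I_ne_zero h1
    exact_mod_cast h2
  · rintro ⟨p, hp⟩
    refine ⟨p, ?_⟩
    rw [hp]
    push_cast
    ring

/-- the character at the pair `(α, β)` -/
lemma four_mul_four (l j : ℤ) (α β : ℝ) :
    (fourier l (α : T1) * fourier j (β : T1) : ℂ) =
      Complex.exp (2 * Real.pi * Complex.I * ((l * α + j * β : ℝ) : ℂ)) := by
  rw [four_coe, four_coe, ← Complex.exp_add]
  congr 1
  push_cast
  ring

lemma integral_four (j : ℤ) : (∫ y : T1, (fourier j y : ℂ)) = if j = 0 then 1 else 0 := by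
  split_ifs with h
  · subst h
    simp
  · have hw2 : (fourier j ((1 / (2 * j) : ℝ) : T1) : ℂ) ≠ 1 := by
      rw [four_coe, Ne, exp_int_iff]
      rintro ⟨p, hp⟩
      have hj : (j : ℝ) ≠ 0 := by exact_mod_cast h
      have h1 : (j : ℝ) * (1 / (2 * j)) = 1 / 2 := by field_simp
      rw [h1] at hp
      have h2 : (1 : ℝ) = ((2 * p : ℤ) : ℝ) := by push_cast; linarith
      have h3 : (1 : ℤ) = 2 * p := by exact_mod_cast h2
      omega
    set b : T1 := ((1 / (2 * j) : ℝ) : T1) with hb
    have h1 : ∫ θ : T1, (fourier j (θ + b) : ℂ) = ∫ θ : T1, (fourier j θ : ℂ) :=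
      integral_add_right_eq_self (μ := (volume : Measure T1)) (fun θ => (fourier j θ : ℂ)) b
    have h2 : ∫ θ : T1, (fourier j (θ + b) : ℂ) = (∫ θ : T1, (fourier j θ : ℂ)) * fourier j b := by
      rw [← integral_mul_const]
      refine integral_congr_ae (Eventually.of_forall fun θ => ?_)
      exact four_add j θ b
    rw [h1] at h2
    have h3 : (∫ θ : T1, (fourier j θ : ℂ)) * (fourier j b - 1) = 0 := by
      rw [mul_sub, ← h2, mul_one, sub_self]
    rcases mul_eq_zero.1 h3 with h | h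
    · exact h
    · exact absurd (sub_eq_zero.1 h) hw2

/-- mean of characters along `n (α, β)` -/
lemma mean_two (l j : ℤ) (α β : ℝ) (h : ∀ p : ℤ, (l : ℝ) * α + j * β ≠ p) :
    Tendsto (mean fun n => fourier l ((n * α : ℝ) : T1) * fourier j ((n * β : ℝ) : T1)) atTop
      (𝓝 0) := by
  have e : (fun n : ℕ => (fourier l ((n * α : ℝ) : T1) * fourier j ((n * β : ℝ) : T1) : ℂ)) =
      fun n => (fourier l (α : T1) * fourier j (β : T1) : ℂ) ^ n := by
    funext n
    rw [four_nmul, four_nmul, mul_pow]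
  rw [e]
  refine mean_geom ?_ ?_
  · rw [norm_mul, four_norm, four_norm, one_mul]
  · rw [four_mul_four, Ne, exp_int_iff]
    rintro ⟨p, hp⟩
    exact h p hp

lemma mean_rot {β : ℝ} (hβ : Irrational β) (j : ℤ) :
    Tendsto (mean fun n => 1 * fourier j ((n * β : ℝ) : T1)) atTop
      (𝓝 (1 * ∫ y : T1, fourier j y)) := by
  rw [integral_four]
  split_ifs with h
  · subst h
    simpa using mean_one
  · have h1 := mean_two 0 j 0 β (by
      intro p hp
      have h2 : Irrational ((j : ℝ) * β) := hβ.intCast_mul h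
      apply h2
      exact ⟨p, by push_cast; linarith⟩)
    simpa using h1

variable {g : T1 → ℝ} {y₀ : T1} {α β : ℝ}

lemma cont_four (l : ℤ) (hg : ContinuousOn g {y₀}ᶜ) :
    ContinuousOn (fun y : T1 => (fourier l ((g y : ℝ) : T1) : ℂ)) {y₀}ᶜ := by
  have h1 : Continuous fun x : ℝ => (fourier l (x : T1) : ℂ) :=
    (fourier l).continuous.comp (AddCircle.continuous_mk' 1)
  exact h1.comp_continuousOn hg

theorem weyl_zero (hg : ContinuousOn g {y₀}ᶜ) (hβ : Irrational β) (l : ℤ)
    (h : ∀ j p : ℤ, (l : ℝ) * α + j * β ≠ p) :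
    Tendsto (mean fun n => fourier l ((n * α + g ((n * β : ℝ) : T1) : ℝ) : T1)) atTop (𝓝 0) := by
  have h1 := mean_disc (x := fun n : ℕ => ((n * β : ℝ) : T1))
    (c := fun n => fourier l ((n * α : ℝ) : T1)) (fun n => (four_norm _ _).le) (κ := 0) (by simp)
    (by
      intro j
      rw [zero_mul]
      exact mean_two l j α β (h j))
    (mean_rot hβ) (fun y : T1 => (fourier l ((g y : ℝ) : T1) : ℂ))
    (fun y => (four_norm _ _).le) y₀ (cont_four l hg)
  rw [zero_mul] at h1
  refine h1.congr fun N => ?_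
  congr 1
  funext n
  rw [← four_add]
  congr 1

theorem weyl_res (hg : ContinuousOn g {y₀}ᶜ) (hβ : Irrational β) (l j p : ℤ)
    (h : (l : ℝ) * α = p + j * β) :
    Tendsto (mean fun n => fourier l ((n * α + g ((n * β : ℝ) : T1) : ℝ) : T1)) atTop
      (𝓝 (∫ y : T1, fourier j y * fourier l ((g y : ℝ) : T1))) := by
  have h1 := mean_disc (x := fun n : ℕ => ((n * β : ℝ) : T1))
    (c := fun n => 1) (fun n => by simp) (κ := 1) (by simp)
    (mean_rot hβ)
    (mean_rot hβ) (fun y : T1 => (fourier j y * fourier l ((g y : ℝ) : T1) : ℂ))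
    (fun y => by rw [norm_mul, four_norm, four_norm, one_mul]) y₀
    ((fourier j).continuous.continuousOn.mul (cont_four l hg))
  rw [one_mul] at h1
  refine h1.congr fun N => ?_
  congr 1
  funext n
  have e1 : ((n * α + g ((n * β : ℝ) : T1) : ℝ) : T1) =
      ((n * α : ℝ) : T1) + ((g ((n * β : ℝ) : T1) : ℝ) : T1) := rfl
  rw [one_mul, e1, four_add]
  congr 1
  rw [four_coe, four_coe, ← sub_eq_zero]
  have h2 : (2 * Real.pi * Complex.I * (((l : ℝ) * (n * α) : ℝ) : ℂ)) =
      2 * Real.pi * Complex.I * (((j : ℝ) * (n * β) : ℝ) : ℂ) +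
        ((n * p : ℤ) : ℂ) * (2 * Real.pi * Complex.I) := by
    have : (l : ℝ) * (n * α) = j * (n * β) + n * p := by
      linear_combination (n : ℝ) * h
    rw [this]
    push_cast
    ring
  rw [h2, Complex.exp_add, Complex.exp_int_mul_two_pi_mul_I, mul_one, sub_self]

end Pool.Agent.Helper84.BD
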