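import Pool.Agent.Helper84.BD.Port
import Pool.Agent.Helper84.BD.Weyl

/-!
# MP_1609c3_nt: arcs of the circle
-/

set_option autoImplicit false

namespace Pool.Agent.Helper84.BD

open Filter Topology MeasureTheory Finset
open scoped ENNReal

/-- the arc `[s, t)` -/
def arc (s t : ℝ) : Set T1 := (fun x : ℝ => (x : T1)) '' Set.Ico s t

lemma coe_eq_coe_iff' (x z : ℝ) : (x : T1) = (z : T1) ↔ ∃ k : ℤ, z = x + k := by
  rw [← sub_eq_zero, ← AddCircle.coe_sub, AddCircle.coe_eq_zero_iff]
  constructor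
  · rintro ⟨n, hn⟩
    refine ⟨-n, ?_⟩
    simp only [zsmul_eq_mul, mul_one] at hn
    push_cast
    linarith
  · rintro ⟨k, hk⟩
    refine ⟨-k, ?_⟩
    simp only [zsmul_eq_mul, mul_one]
    push_cast
    linarith

lemma mem_arc (s t x : ℝ) : (x : T1) ∈ arc s t ↔ ∃ k : ℤ, s ≤ x + k ∧ x + k < t := by
  constructor
  · rintro ⟨z, hz, he⟩
    obtain ⟨k, hk⟩ := (coe_eq_coe_iff' x z).1 he.symm
    exact ⟨k, hk ▸ hz.1, hk ▸ hz.2⟩
  · rintro ⟨k, h1, h2⟩
    exact ⟨x + k, ⟨h1, h2⟩, ((coe_eq_coe_iff' x (x + k)).2 ⟨k, rfl⟩).symm⟩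

lemma coe_continuous : Continuous fun x : ℝ => (x : T1) := AddCircle.continuous_mk' 1

lemma isOpenMap_coe' : IsOpenMap fun x : ℝ => (x : T1) := QuotientAddGroup.isOpenMap_coe

lemma frontier_arc {s t : ℝ} (hst : s ≤ t) : frontier (arc s t) ⊆ {(s : T1), (t : T1)} := by
  have h1 : closure (arc s t) ⊆ (fun x : ℝ => (x : T1)) '' Set.Icc s t := by
    apply closure_minimal (Set.image_mono Set.Ico_subset_Icc_self)
    exact (isCompact_Icc.image coe_continuous).isClosed
  have h2 : (fun x : ℝ => (x : T1)) '' Set.Ioo s t ⊆ interior (arc s t) := by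
    apply interior_maximal (Set.image_mono Set.Ioo_subset_Ico_self)
    exact isOpenMap_coe' _ isOpen_Ioo
  rintro x ⟨hx1, hx2⟩
  obtain ⟨z, hz, rfl⟩ := h1 hx1
  by_cases h3 : z ∈ Set.Ioo s t
  · exact absurd (h2 ⟨z, h3, rfl⟩) hx2
  · rcases eq_or_lt_of_le hz.1 with h4 | h4
    · left; rw [h4]
    · rcases eq_or_lt_of_le hz.2 with h5 | h5
      · right; rw [h5]; rfl
      · exact absurd ⟨h4, h5⟩ h3

lemma measurableSet_arc (s t : ℝ) : MeasurableSet (arc s t) := by
  rcases le_or_gt t s with h | h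
  · rw [arc, Set.Ico_eq_empty (not_lt.2 h), Set.image_empty]
    exact MeasurableSet.empty
  · have h1 : arc s t = {(s : T1)} ∪ (fun x : ℝ => (x : T1)) '' Set.Ioo s t := by
      rw [arc, ← Set.image_singleton, ← Set.image_union]
      congr 1
      ext z
      simp only [Set.mem_Ico, Set.singleton_union, Set.mem_insert_iff, Set.mem_Ioo]
      constructor
      · rintro ⟨h1, h2⟩
        rcases eq_or_lt_of_le h1 with h3 | h3
        · left; exact h3.symm
        · right; exact ⟨h3, h2⟩
      · rintro (h1 | ⟨h1, h2⟩)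
        · exact ⟨h1.ge, h1 ▸ h⟩
        · exact ⟨h1.le, h2⟩
    rw [h1]
    exact (measurableSet_singleton _).union (isOpenMap_coe' _ isOpen_Ioo).measurableSet

lemma volume_arc {s t : ℝ} (hst : s ≤ t) (hts : t ≤ s + 1) :
    (volume (arc s t)).toReal = t - s := by
  rcases eq_or_lt_of_le hst with h | h
  · subst h
    simp [arc]
  have h1 := (UnitAddCircle.measurePreserving_mk s).measure_preimage
    (measurableSet_arc s t).nullMeasurableSet
  rw [← h1, Measure.restrict_apply (coe_continuous.measurable (measurableSet_arc s t))]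
  have h2 : (fun x : ℝ => (x : T1)) ⁻¹' (arc s t) ∩ Set.Ioc s (s + 1) =
      Set.Ioo s t ∪ {s + 1} := by
    ext x
    simp only [Set.mem_inter_iff, Set.mem_preimage, mem_arc, Set.mem_Ioc, Set.union_singleton,
      Set.mem_insert_iff, Set.mem_Ioo]
    constructor
    · rintro ⟨⟨k, hk1, hk2⟩, h3, h4⟩
      rcases eq_or_lt_of_le h4 with h5 | h5
      · left; exact h5
      · right
        have hk0 : k = 0 := by
          have h6 : (k : ℝ) < 1 := by linarith
          have h7 : (-1 : ℝ) < k := by linarith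
          have h8 : k < 1 := by exact_mod_cast h6
          have h9 : -1 < k := by exact_mod_cast h7
          omega
        subst hk0
        exact ⟨h3, by simpa using hk2⟩
    · rintro (h3 | ⟨h3, h4⟩)
      · subst h3
        refine ⟨⟨-1, ?_, ?_⟩, by linarith, le_rfl⟩ <;> push_cast <;> linarith
      · exact ⟨⟨0, by push_cast; linarith, by push_cast; linarith⟩, h3, by linarith⟩
  have h3 : (fun x : ℝ => (x : UnitAddCircle)) ⁻¹' (arc s t) ∩ Set.Ioc s (s + 1) =
      Set.Ioo s t ∪ {s + 1} := h2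
  rw [h3]
  have h4 : volume (Set.Ioo s t ∪ {s + 1}) = ENNReal.ofReal (t - s) := by
    apply le_antisymm
    · refine (measure_union_le _ _).trans ?_
      simp
    · rw [← Real.volume_Ioo]
      exact measure_mono Set.subset_union_left
  rw [h4, ENNReal.toReal_ofReal (by linarith)]

/-- the sequence `n α + g(n β)` visits `[s, t)` modulo one -/
def Hit (u : ℕ → ℝ) (s t : ℝ) (n : ℕ) : Prop := ∃ k : ℤ, s ≤ u n + k ∧ u n + k < t

variable {g : T1 → ℝ} {y₀ : T1} {α β : ℝ}

/-- **non-resonant case** -/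
theorem freq_nonres (hg : ContinuousOn g {y₀}ᶜ) (hβ : Irrational β)
    (h : ∀ l : ℤ, l ≠ 0 → ∀ j p : ℤ, (l : ℝ) * α + j * β ≠ p) {s t : ℝ} (hst : s ≤ t)
    (hts : t ≤ s + 1) :
    Tendsto (freq (Hit (fun n => n * α + g ((n * β : ℝ) : T1)) s t)) atTop (𝓝 (t - s)) := by
  have h1 := freq_tendsto (u := fun n : ℕ => ((n * α + g ((n * β : ℝ) : T1) : ℝ) : T1))
    ⟨volume, inferInstance⟩ (by
      intro l
      show Tendsto _ _ (𝓝 (∫ y : T1, (fourier l y : ℂ)))
      rw [integral_four]
      split_ifs with hl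
      · subst hl
        simpa using mean_one
      · exact weyl_zero hg hβ l (h l hl)) (E := arc s t) (by
      show (volume : Measure T1) _ = 0
      refine measure_mono_null (frontier_arc hst) ?_
      exact (Set.toFinite _).measure_zero _)
  have h2 : ((volume : Measure T1) (arc s t)).toReal = t - s := volume_arc hst hts
  change Tendsto _ _ (𝓝 ((volume : Measure T1) (arc s t)).toReal) at h1
  rw [h2] at h1
  have e : freq (Hit (fun n => n * α + g ((n * β : ℝ) : T1)) s t) =
      freq (fun n : ℕ => ((n * α + g ((n * β : ℝ) : T1) : ℝ) : T1) ∈ arc s t) :=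
    freq_congr fun n => (mem_arc s t _).symm
  rw [e]
  exact h1

end Pool.Agent.Helper84.BD
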