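import Pool.Agent.Helper17.Trs2.Defs

/-!
# The six exponentials theorem, from the linear subgroup theorem of project `trs2`
-/

set_option autoImplicit false

namespace Pool.Agent.Helper84.BD

open Trs Trs2

/-- **Six exponentials theorem**: `x₁, x₂` linearly independent over `ℚ`, `y₁, y₂, y₃` linearly
independent over `ℚ`; then one of the numbers `exp (x_i y_j)` is transcendental. -/
theorem six_exp_of (hM : Trs2.S_Main) (x : Fin 2 → ℂ) (y : Fin 3 → ℂ)
    (hx : ∀ g : Fin 2 → ℤ, ∑ i, (g i : ℂ) * x i = 0 → g = 0)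
    (hy : ∀ g : Fin 3 → ℤ, ∑ j, (g j : ℂ) * y j = 0 → g = 0) :
    ∃ i j, Transcendental ℚ (Complex.exp (x i * y j)) := by
  by_contra hcon
  have halg : ∀ i j, IsAlgebraic ℚ (Complex.exp (x i * y j)) := by
    intro i j
    by_contra h
    exact hcon ⟨i, j, h⟩
  have hx0 : x 0 ≠ 0 := by
    intro h
    have := hx ![1, 0] (by simp [Fin.sum_univ_two, h])
    have h1 := congrFun this 0
    simp at h1
  set γ : Fin 3 → Fin 2 → ℂ := fun k i => x i * y k with hγ
  have hgp : ∀ (g : Fin 3 → ℤ) (i : Fin 2), gp γ g i = x i * ∑ k, (g k : ℂ) * y k := by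
    intro g i
    simp only [gp, Finset.sum_apply, Pi.smul_apply, smul_eq_mul, hγ, Finset.mul_sum]
    refine Finset.sum_congr rfl fun k _ => ?_
    ring
  have hgs : ∀ (g : Fin 3 → ℤ) (m : Fin 2 → ℤ), ∑ i, (m i : ℂ) * gp γ g i =
      (∑ i, (m i : ℂ) * x i) * ∑ k, (g k : ℂ) * y k := by
    intro g m
    simp only [hgp, Finset.sum_mul]
    refine Finset.sum_congr rfl fun i _ => ?_
    ring
  have h2pi : (2 * (Real.pi : ℂ) * Complex.I) ≠ 0 := Complex.two_pi_I_ne_zero
  have hexp1 : ∀ z : ℂ, Complex.exp z = 1 → ∃ n : ℤ, z = n * (2 * (Real.pi : ℂ) * Complex.I) :=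
    fun z hz => Complex.exp_eq_one_iff.1 hz
  refine hM 2 3 0 (fun _ => true) γ (fun k => Fin.elim0 k) ![x 1, - x 0] ?_ ?_ ?_ ?_ ?_
    19 0 10 7 0 (by norm_num) (by norm_num) (by norm_num) ?_ ?_
  · intro h
    have := congrFun h 1
    simp at this
    exact hx0 this
  · intro k
    simp [Fin.sum_univ_two, hγ]
    ring
  · intro k
    exact Fin.elim0 k
  · intro k i
    simpa [hγ] using halg i k
  · intro k
    exact Fin.elim0 k
  · simp [Fin.sum_univ_two, ex]
  · -- the shape condition
    intro ca cm lam mu hlam hmu hl0 _ hpos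
    have hca : ca = 0 := by
      rcases Nat.eq_zero_or_pos ca with h | h
      · exact h
      · exfalso
        have h1 : lam ⟨0, h⟩ = 0 := by
          funext i
          exact hl0 _ i rfl
        exact hlam.ne_zero ⟨0, h⟩ h1
    subst hca
    have hcm : 0 < cm := by omega
    have hcm2 : cm ≤ 2 := by
      have := hmu.fintype_card_le_finrank
      simpa using this
    have hc : ∀ j, ∑ i, (mu j i : ℂ) * x i ≠ 0 := by
      intro j h
      exact hmu.ne_zero j (hx _ h)
    obtain rfl | rfl : cm = 1 ∨ cm = 2 := by omega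
    · by_cases hh : ∃ h : Fin 3 → ℤ, h ≠ 0 ∧
          Complex.exp ((∑ i, (mu 0 i : ℂ) * x i) * ∑ k, (h k : ℂ) * y k) = 1
      · obtain ⟨h, h0, h1⟩ := hh
        obtain ⟨k0, hk0⟩ := Function.ne_iff.1 h0
        refine ⟨Finset.univ.erase k0, ∅, ?_, fun z _ _ _ => Subsingleton.elim _ _, ?_⟩
        · intro g hg _ hg1
          have hgk0 : g k0 = 0 := hg k0 (by simp)
          have e1 := hg1 0
          rw [hgs] at e1
          obtain ⟨a, ha⟩ := hexp1 _ e1
          obtain ⟨b, hb⟩ := hexp1 _ h1
          have h3 : ∑ k, ((b * g k - a * h k : ℤ) : ℂ) * y k = 0 := by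
            have : (∑ i, (mu 0 i : ℂ) * x i) * ∑ k, ((b * g k - a * h k : ℤ) : ℂ) * y k = 0 := by
              have e : ∑ k, ((b * g k - a * h k : ℤ) : ℂ) * y k =
                  b * (∑ k, (g k : ℂ) * y k) - a * ∑ k, (h k : ℂ) * y k := by
                rw [Finset.mul_sum, Finset.mul_sum, ← Finset.sum_sub_distrib]
                refine Finset.sum_congr rfl fun k _ => ?_
                push_cast
                ring
              rw [e]
              linear_combination (b : ℂ) * ha - (a : ℂ) * hb
            exact (mul_eq_zero.1 this).resolve_left (hc 0)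
          have h4 := congrFun (hy _ h3) k0
          simp only [hgk0, mul_zero, zero_sub, Pi.zero_apply, neg_eq_zero] at h4
          have ha0 : a = 0 := (mul_eq_zero.1 h4).resolve_right hk0
          rw [ha0] at ha
          have h5 : ∑ k, (g k : ℂ) * y k = 0 := by
            have : (∑ i, (mu 0 i : ℂ) * x i) * ∑ k, (g k : ℂ) * y k = 0 := by
              rw [ha]; simp
            exact (mul_eq_zero.1 this).resolve_left (hc 0)
          exact hy _ h5
        · simp [Finset.card_erase_of_mem]
      · push Not at hh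
        refine ⟨{0, 1}, ∅, ?_, fun z _ _ _ => Subsingleton.elim _ _, ?_⟩
        · intro g hg _ hg1
          by_contra hg0
          have e1 := hg1 0
          rw [hgs] at e1
          exact hh g hg0 e1
        · simp
    · refine ⟨Finset.univ, ∅, ?_, fun z _ _ _ => Subsingleton.elim _ _, ?_⟩
      · intro g _ _ hg1
        by_contra hg0
        have hY : ∑ k, (g k : ℂ) * y k ≠ 0 := fun h => hg0 (hy _ h)
        have e0 := hg1 0
        have e1 := hg1 1
        rw [hgs] at e0 e1
        obtain ⟨a, ha⟩ := hexp1 _ e0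
        obtain ⟨b, hb⟩ := hexp1 _ e1
        have h3 : ∑ i, ((b * mu 0 i - a * mu 1 i : ℤ) : ℂ) * x i = 0 := by
          have : (∑ i, ((b * mu 0 i - a * mu 1 i : ℤ) : ℂ) * x i) * ∑ k, (g k : ℂ) * y k = 0 := by
            have e : ∑ i, ((b * mu 0 i - a * mu 1 i : ℤ) : ℂ) * x i =
                b * (∑ i, (mu 0 i : ℂ) * x i) - a * ∑ i, (mu 1 i : ℂ) * x i := by
              rw [Finset.mul_sum, Finset.mul_sum, ← Finset.sum_sub_distrib]
              refine Finset.sum_congr rfl fun k _ => ?_
              push_cast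
              ring
            rw [e]
            linear_combination (b : ℂ) * ha - (a : ℂ) * hb
          exact (mul_eq_zero.1 this).resolve_right hY
        have h4 := hx _ h3
        have h5 : b • mu 0 + (-a) • mu 1 = 0 := by
          funext i
          have := congrFun h4 i
          simp only [Pi.zero_apply] at this
          simp only [Pi.add_apply, Pi.smul_apply, smul_eq_mul, Pi.zero_apply]
          linarith
        have h6 := Fintype.linearIndependent_iff.1 hmu ![b, -a] (by
          simpa [Fin.sum_univ_two] using h5)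
        have ha0 : a = 0 := by
          have := h6 1
          simpa using this
        rw [ha0] at ha
        have : (∑ i, (mu 0 i : ℂ) * x i) * ∑ k, (g k : ℂ) * y k = 0 := by
          rw [ha]; simp
        exact (mul_ne_zero (hc 0) hY) this
      · simp

end Pool.Agent.Helper84.BD
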