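import Pool.Agent.Helper84.BD.Digits
import Pool.Agent.Helper84.BD.SixExpOf

/-!
# MP_1609c3_nt: at most one class of exceptional bases (six exponentials theorem)
-/

set_option autoImplicit false

namespace Pool.Agent.Helper84.BD

open Filter Topology MeasureTheory

/-- a resonance in base `b` -/
def Exc (b : ℕ) : Prop := ∃ l j p : ℤ, l ≠ 0 ∧ (l : ℝ) * al b + j * be = p

lemma sigLaw_of_not_exc {b : ℕ} (hb : 2 ≤ b) (h : ¬ Exc b) : SigLaw b :=
  sigLaw_of_nonres hb fun l hl j p hjp => h ⟨l, j, p, hl, hjp⟩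

lemma dep_of_log {b c : ℕ} (hb : 2 ≤ b) (hc : 2 ≤ c) {g1 g2 : ℤ} (hg : g1 ≠ 0)
    (h : (g1 : ℝ) * Real.log b + g2 * Real.log c = 0) : ∃ m n : ℕ, m ≠ 0 ∧ n ≠ 0 ∧
      b ^ m = c ^ n := by
  have hlb : 0 < Real.log b := Real.log_pos (by exact_mod_cast (by omega : 1 < b))
  have hlc : 0 < Real.log c := Real.log_pos (by exact_mod_cast (by omega : 1 < c))
  have hg2 : g2 ≠ 0 := by
    intro h0
    rw [h0] at h
    simp only [Int.cast_zero, zero_mul, add_zero] at h
    rcases mul_eq_zero.1 h with h1 | h1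
    · exact hg (by exact_mod_cast h1)
    · linarith
  have h1 : |(g1 : ℝ)| * Real.log b = |(g2 : ℝ)| * Real.log c := by
    have h2 : (g1 : ℝ) * Real.log b = -(g2 * Real.log c) := by linarith
    have h3 := congrArg abs h2
    rw [abs_neg, abs_mul, abs_mul, abs_of_pos hlb, abs_of_pos hlc] at h3
    exact h3
  refine ⟨g1.natAbs, g2.natAbs, Int.natAbs_ne_zero.2 hg, Int.natAbs_ne_zero.2 hg2, ?_⟩
  have e1 : ((g1.natAbs : ℕ) : ℝ) = |(g1 : ℝ)| := by rw [Nat.cast_natAbs, Int.cast_abs]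
  have e2 : ((g2.natAbs : ℕ) : ℝ) = |(g2 : ℝ)| := by rw [Nat.cast_natAbs, Int.cast_abs]
  rw [← e1, ← e2, ← Real.log_pow, ← Real.log_pow] at h1
  have hb0 : (0 : ℝ) < b := by exact_mod_cast (by omega : 0 < b)
  have hc0 : (0 : ℝ) < c := by exact_mod_cast (by omega : 0 < c)
  have h2 := Real.log_injOn_pos (Set.mem_Ioi.2 (by positivity)) (Set.mem_Ioi.2 (by positivity)) h1
  exact_mod_cast h2

lemma common_root {b c m n : ℕ} (hm : m ≠ 0) (hn : n ≠ 0) (h : b ^ m = c ^ n) :
    ∃ t u v : ℕ, u ≠ 0 ∧ v ≠ 0 ∧ b = t ^ u ∧ c = t ^ v := by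
  obtain ⟨t, h1, h2⟩ := Nat.exists_eq_pow_of_pow_eq_pow (Or.inl hm) h
  refine ⟨t, n / Nat.gcd m n, m / Nat.gcd m n, ?_, ?_, h1, h2⟩
  · exact (Nat.div_pos (Nat.le_of_dvd (by omega) (Nat.gcd_dvd_right m n))
      (Nat.gcd_pos_of_pos_left _ (by omega))).ne'
  · exact (Nat.div_pos (Nat.le_of_dvd (by omega) (Nat.gcd_dvd_left m n))
      (Nat.gcd_pos_of_pos_left _ (by omega))).ne'

lemma pow_three_of_dep {b m n : ℕ} (hm : m ≠ 0) (hn : n ≠ 0) (h : b ^ m = 3 ^ n) :
    ∃ k, b = 3 ^ k := by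
  obtain ⟨t, u, v, hu, hv, h1, h2⟩ := common_root hm hn h
  have h3 : t = 3 := by
    have hp : (3 : ℕ).Prime := Nat.prime_three
    rw [h2] at hp
    have hv1 : v = 1 := Nat.Prime.eq_one_of_pow hp
    rw [hv1, pow_one] at h2
    exact h2.symm
  exact ⟨u, by rw [h1, h3]⟩

/-- a resonance in a base which is not a power of three involves the angle -/
lemma exc_j {b : ℕ} (hb : 2 ≤ b) (h3 : ¬ ∃ k, b = 3 ^ k) {l j p : ℤ} (hl : l ≠ 0)
    (h : (l : ℝ) * al b + j * be = p) : j ≠ 0 := by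
  intro hj
  rw [hj] at h
  have hlb : 0 < Real.log b := Real.log_pos (by exact_mod_cast (by omega : 1 < b))
  have hl3 : 0 < Real.log 3 := Real.log_pos (by norm_num)
  have h1 : (l : ℝ) * Real.log 3 = 2 * p * Real.log b := by
    rw [al] at h
    field_simp at h
    push_cast at h
    linarith
  have h2 : ((l : ℤ) : ℝ) * Real.log ((3 : ℕ) : ℝ) + ((-(2 * p) : ℤ) : ℝ) * Real.log b = 0 := by
    push_cast
    linarith
  obtain ⟨m, n, hm, hn, h4⟩ := dep_of_log (b := 3) (by norm_num) hb hl h2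
  exact h3 (pow_three_of_dep hn hm h4.symm)

lemma alg_of_pow {z : ℂ} {n : ℤ} (hn : n ≠ 0) (h : IsAlgebraic ℚ (z ^ n)) : IsAlgebraic ℚ z := by
  rcases Int.natAbs_eq n with h1 | h1
  · rw [h1, zpow_natCast] at h
    exact IsAlgebraic.of_pow (Int.natAbs_pos.2 hn) h
  · rw [h1, zpow_neg, zpow_natCast] at h
    have h2 := h.inv
    rw [inv_inv] at h2
    exact IsAlgebraic.of_pow (Int.natAbs_pos.2 hn) h2

lemma exp_be_log {b : ℕ} (hb : 2 ≤ b) {l j p : ℤ} (hj : j ≠ 0)
    (h : (l : ℝ) * al b + j * be = p) :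
    IsAlgebraic ℚ (Complex.exp ((be : ℂ) * (Real.log b : ℝ))) := by
  have hlb : 0 < Real.log b := Real.log_pos (by exact_mod_cast (by omega : 1 < b))
  have hb0 : (0 : ℝ) < b := by exact_mod_cast (by omega : 0 < b)
  have h1 : 2 * (j : ℝ) * (be * Real.log b) = 2 * p * Real.log b - l * Real.log 3 := by
    rw [al] at h
    field_simp at h
    linarith
  apply alg_of_pow (n := 2 * j) (by omega)
  rw [← Complex.exp_int_mul]
  have e : (((2 * j : ℤ) : ℂ)) * ((be : ℂ) * (Real.log b : ℝ)) =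
      ((2 * p : ℤ) : ℂ) * ((Real.log b : ℝ) : ℂ) - (l : ℂ) * ((Real.log 3 : ℝ) : ℂ) := by
    have := congrArg (fun x : ℝ => (x : ℂ)) h1
    push_cast at this ⊢
    linear_combination this
  rw [e, Complex.exp_sub, Complex.exp_int_mul, Complex.exp_int_mul, ← Complex.ofReal_exp,
    ← Complex.ofReal_exp, Real.exp_log hb0, Real.exp_log (by norm_num : (0 : ℝ) < 3)]
  have hA : IsAlgebraic ℚ (((b : ℝ) : ℂ)) := by
    have : ((b : ℝ) : ℂ) = algebraMap ℚ ℂ b := by simp
    rw [this]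
    exact isAlgebraic_algebraMap _
  have hB : IsAlgebraic ℚ (((3 : ℝ) : ℂ)) := by
    have : ((3 : ℝ) : ℂ) = algebraMap ℚ ℂ 3 := by simp
    rw [this]
    exact isAlgebraic_algebraMap _
  have hz : ∀ (w : ℂ) (n : ℤ), IsAlgebraic ℚ w → IsAlgebraic ℚ (w ^ n) := by
    intro w n hw
    rcases Int.natAbs_eq n with h1 | h1
    · rw [h1, zpow_natCast]
      exact hw.pow _
    · rw [h1, zpow_neg, zpow_natCast]
      exact (hw.pow _).inv
  rw [div_eq_mul_inv]
  exact (hz _ _ hA).mul (hz _ _ hB).inv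

lemma exp_i_th : IsAlgebraic ℚ (Complex.exp ((th : ℂ) * Complex.I)) := by
  rw [Complex.exp_mul_I, ← Complex.ofReal_cos, ← Complex.ofReal_sin]
  have h3 : (Real.sqrt 3) ^ 2 = 3 := Real.sq_sqrt (by norm_num)
  have h2 : (Real.sqrt 2) ^ 2 = 2 := Real.sq_sqrt (by norm_num)
  have hc : (Real.cos th) ^ 2 = 1 / 3 := by
    have := sqrt_three_cos
    have h4 : (Real.sqrt 3) ^ 2 * (Real.cos th) ^ 2 = 1 := by
      rw [← mul_pow, this, one_pow]
    rw [h3] at h4
    linarith
  have hs : (Real.sin th) ^ 2 = 2 / 3 := by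
    have := Real.sin_sq_add_cos_sq th
    linarith
  have hcA : IsAlgebraic ℚ (((Real.cos th : ℝ) : ℂ)) := by
    apply IsAlgebraic.of_pow (n := 2) (by norm_num)
    rw [← Complex.ofReal_pow, hc]
    have : (((1 / 3 : ℝ)) : ℂ) = algebraMap ℚ ℂ (1 / 3) := by simp
    rw [this]
    exact isAlgebraic_algebraMap _
  have hsA : IsAlgebraic ℚ (((Real.sin th : ℝ) : ℂ)) := by
    apply IsAlgebraic.of_pow (n := 2) (by norm_num)
    rw [← Complex.ofReal_pow, hs]
    have : (((2 / 3 : ℝ)) : ℂ) = algebraMap ℚ ℂ (2 / 3) := by simp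
    rw [this]
    exact isAlgebraic_algebraMap _
  have hI : IsAlgebraic ℚ Complex.I := by
    apply IsAlgebraic.of_pow (n := 2) (by norm_num)
    rw [Complex.I_sq]
    have : (-1 : ℂ) = algebraMap ℚ ℂ (-1) := by simp
    rw [this]
    exact isAlgebraic_algebraMap _
  exact hcA.add (hsA.mul hI)

lemma reim {g0 g1 g2 : ℤ} {B C : ℝ}
    (h : (g0 : ℂ) * ((Real.pi : ℂ) * Complex.I) + g1 * (B : ℂ) + g2 * (C : ℂ) = 0) :
    g0 = 0 ∧ (g1 : ℝ) * B + g2 * C = 0 := by
  have hre := congrArg Complex.re h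
  have him := congrArg Complex.im h
  simp at hre him
  exact ⟨him, hre⟩

/-- **two exceptional bases are multiplicatively dependent** -/
theorem exc_dep (hM : Trs2.S_Main) {b c : ℕ} (hb : 2 ≤ b) (hc : 2 ≤ c)
    (hb3 : ¬ ∃ k, b = 3 ^ k) (hc3 : ¬ ∃ k, c = 3 ^ k) (h1 : Exc b) (h2 : Exc c) :
    ∃ m n : ℕ, m ≠ 0 ∧ n ≠ 0 ∧ b ^ m = c ^ n := by
  by_contra hcon
  obtain ⟨l, j, p, hl, h⟩ := h1
  obtain ⟨l', j', p', hl', h'⟩ := h2
  have hj := exc_j hb hb3 hl h
  have hj' := exc_j hc hc3 hl' h'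
  have hlb : 0 < Real.log b := Real.log_pos (by exact_mod_cast (by omega : 1 < b))
  have hlc : 0 < Real.log c := Real.log_pos (by exact_mod_cast (by omega : 1 < c))
  have hb0 : (0 : ℝ) < b := by exact_mod_cast (by omega : 0 < b)
  have hc0 : (0 : ℝ) < c := by exact_mod_cast (by omega : 0 < c)
  obtain ⟨i, k, hik⟩ := six_exp_of hM ![1, (be : ℂ)]
    ![(Real.pi : ℂ) * Complex.I, ((Real.log b : ℝ) : ℂ), ((Real.log c : ℝ) : ℂ)]
    (by
      intro g hg
      simp only [Fin.sum_univ_two, Matrix.cons_val_zero, Matrix.cons_val_one, mul_one] at hg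
      have hg' : (g 0 : ℝ) + g 1 * be = 0 := by exact_mod_cast hg
      have hg1 : g 1 = 0 := by
        by_contra h0
        have hirr : Irrational ((g 1 : ℝ) * be) := be_irrational.intCast_mul h0
        apply hirr
        exact ⟨-(g 0 : ℚ), by push_cast; linarith⟩
      have hg0 : g 0 = 0 := by
        rw [hg1] at hg'
        simpa using hg'
      funext i
      fin_cases i
      · exact hg0
      · exact hg1)
    (by
      intro g hg
      simp only [Fin.sum_univ_three, Matrix.cons_val_zero, Matrix.cons_val_one,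
        Matrix.cons_val] at hg
      obtain ⟨hg0, hre⟩ := reim hg
      have hg1 : g 1 = 0 := by
        by_contra h0
        exact hcon (dep_of_log hb hc h0 hre)
      have hg2 : g 2 = 0 := by
        rw [hg1] at hre
        simp only [Int.cast_zero, zero_mul, zero_add] at hre
        rcases mul_eq_zero.1 hre with h | h
        · exact_mod_cast h
        · linarith
      funext i
      fin_cases i
      · exact hg0
      · exact hg1
      · exact hg2)
  apply hik
  have hnat : ∀ m : ℕ, IsAlgebraic ℚ (((m : ℝ) : ℂ)) := by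
    intro m
    have : ((m : ℝ) : ℂ) = algebraMap ℚ ℂ m := by simp
    rw [this]
    exact isAlgebraic_algebraMap _
  fin_cases i <;> fin_cases k
  · simp only [Fin.zero_eta, Matrix.cons_val_zero, one_mul]
    rw [Complex.exp_pi_mul_I]
    have : (-1 : ℂ) = algebraMap ℚ ℂ (-1) := by simp
    rw [this]
    exact isAlgebraic_algebraMap _
  · simp only [Fin.zero_eta, Matrix.cons_val_zero, one_mul, Fin.mk_one, Matrix.cons_val_one]
    rw [← Complex.ofReal_exp, Real.exp_log hb0]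
    exact hnat b
  · simp only [Fin.zero_eta, Matrix.cons_val_zero, one_mul, Fin.reduceFinMk, Matrix.cons_val]
    rw [← Complex.ofReal_exp, Real.exp_log hc0]
    exact hnat c
  · simp only [Fin.mk_one, Matrix.cons_val_one, Fin.zero_eta, Matrix.cons_val_zero]
    have e : (be : ℂ) * ((Real.pi : ℂ) * Complex.I) = (th : ℂ) * Complex.I := by
      have : be * Real.pi = th := by
        rw [be]
        exact div_mul_cancel₀ _ Real.pi_ne_zero
      rw [← mul_assoc, ← Complex.ofReal_mul, this]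
    rw [e]
    exact exp_i_th
  · simp only [Fin.mk_one, Matrix.cons_val_one]
    exact exp_be_log hb hj h
  · simp only [Fin.mk_one, Matrix.cons_val_one, Fin.reduceFinMk, Matrix.cons_val]
    exact exp_be_log hc hj' h'

lemma al_pow (t k : ℕ) (hk : k ≠ 0) : al t = k * al (t ^ k) := by
  rw [al, al]
  push_cast
  rw [Real.log_pow]
  by_cases h : Real.log t = 0
  · simp [h]
  · field_simp

lemma exc_root {t k : ℕ} (hk : k ≠ 0) (h : Exc (t ^ k)) : Exc t := by
  obtain ⟨l, j, p, hl, h⟩ := h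
  refine ⟨l, k * j, k * p, hl, ?_⟩
  rw [al_pow t k hk]
  push_cast
  linear_combination (k : ℝ) * h

lemma exc_power {t k : ℕ} (hk : k ≠ 0) (h : Exc t) : Exc (t ^ k) := by
  obtain ⟨l, j, p, hl, h⟩ := h
  refine ⟨k * l, j, p, mul_ne_zero (by exact_mod_cast hk) hl, ?_⟩
  rw [al_pow t k hk] at h
  push_cast
  linear_combination h

/-- the exceptional bases which are not powers of three are the powers of one number -/
theorem one_class (hM : Trs2.S_Main) : ∃ c : ℕ, 2 ≤ c ∧ Exc c ∧ ∀ b : ℕ, 2 ≤ b → Exc b →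
    (¬ ∃ k, b = 3 ^ k) → ∃ k, b = c ^ k := by
  classical
  by_cases hE : ∃ b : ℕ, 2 ≤ b ∧ Exc b ∧ ¬ ∃ k, b = 3 ^ k
  · set c := Nat.find hE with hc
    obtain ⟨hc2, hcE, hc3⟩ := Nat.find_spec hE
    refine ⟨c, hc2, hcE, ?_⟩
    intro b hb hbE hb3
    obtain ⟨m, n, hm, hn, h⟩ := exc_dep hM hb hc2 hb3 hc3 hbE hcE
    obtain ⟨t, u, v, hu, hv, h1, h2⟩ := common_root hm hn h
    have ht2 : 2 ≤ t := by
      by_contra h0
      have ht : t = 0 ∨ t = 1 := by omega
      rcases ht with ht | ht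
      · rw [ht, zero_pow hu] at h1
        omega
      · rw [ht, one_pow] at h1
        omega
    have htE : Exc t := exc_root hv (h2 ▸ hcE)
    have ht3 : ¬ ∃ k, t = 3 ^ k := by
      rintro ⟨k, hk⟩
      exact hb3 ⟨k * u, by rw [h1, hk, pow_mul]⟩
    have hmin : c ≤ t := Nat.find_min' hE ⟨ht2, htE, ht3⟩
    have hv1 : v = 1 := by
      by_contra hv1
      have hv2 : 2 ≤ v := by omega
      have h4 : t < t ^ v := by
        calc t = t ^ 1 := (pow_one t).symm
          _ < t ^ v := Nat.pow_lt_pow_right (by omega) (by omega)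
      have h5 : c = t ^ v := h2
      omega
    have hct : c = t := by
      have h5 : c = t ^ v := h2
      rw [h5, hv1, pow_one]
    exact ⟨u, by rw [hct]; exact h1⟩
  · push Not at hE
    refine ⟨3, by norm_num, ?_, ?_⟩
    · refine ⟨2, 0, 1, by norm_num, ?_⟩
      have : Real.log 3 ≠ 0 := (Real.log_pos (by norm_num)).ne'
      rw [al]
      push_cast
      field_simp
      ring
    · intro b hb hbE hb3
      exact absurd (hE b hb hbE) (by simpa using hb3)

lemma exc_three {k : ℕ} (hk : k ≠ 0) : Exc (3 ^ k) := by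
  apply exc_power hk
  refine ⟨2, 0, 1, by norm_num, ?_⟩
  have : Real.log 3 ≠ 0 := (Real.log_pos (by norm_num)).ne'
  rw [al]
  push_cast
  field_simp
  ring

end Pool.Agent.Helper84.BD
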