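import Pool.Agent.Helper84.BD.Res

/-!
# MP_1609c3_nt: the function `log_b |cos π y|`
-/

set_option autoImplicit false

namespace Pool.Agent.Helper84.BD

open Filter Topology MeasureTheory Finset
open scoped ENNReal

/-- `log_b |cos π y|` -/
noncomputable def gr (b y : ℝ) : ℝ := Real.logb b |Real.cos (Real.pi * y)|

lemma gr_periodic (b : ℝ) : Function.Periodic (gr b) 1 := by
  intro y
  simp only [gr]
  rw [mul_add, mul_one, Real.cos_add_pi, abs_neg]

/-- `log_b |cos π y|` on the circle -/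
noncomputable def gT (b : ℝ) : T1 → ℝ := (gr_periodic b).lift

lemma gT_coe (b y : ℝ) : gT b (y : T1) = gr b y := rfl

lemma gr_contAt (b : ℝ) {y : ℝ} (hy : Real.cos (Real.pi * y) ≠ 0) : ContinuousAt (gr b) y := by
  unfold gr Real.logb
  apply ContinuousAt.div_const
  apply ContinuousAt.log
  · fun_prop
  · simpa using hy

lemma gT_cont (b : ℝ) : ContinuousOn (gT b) {((1 / 2 : ℝ) : T1)}ᶜ := by
  intro y hy
  apply ContinuousAt.continuousWithinAt
  obtain ⟨x, rfl⟩ := QuotientAddGroup.mk_surjective y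
  have h1 : Real.cos (Real.pi * x) ≠ 0 := by
    intro h
    apply hy
    rw [Real.cos_eq_zero_iff] at h
    obtain ⟨k, hk⟩ := h
    show (x : T1) = ((1 / 2 : ℝ) : T1)
    rw [coe_eq_coe_iff']
    refine ⟨-k, ?_⟩
    have h2 : Real.pi * x = Real.pi * (k + 1 / 2) := by
      rw [hk]; ring
    have h3 := mul_left_cancel₀ Real.pi_ne_zero h2
    rw [h3]
    push_cast
    ring
  have h2 : IsOpenQuotientMap (fun x : ℝ => (x : T1)) := QuotientAddGroup.isOpenQuotientMap_mk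
  exact (h2.continuousAt_comp_iff (g := gT b) (x := x)).1 (gr_contAt b h1)

lemma cos_pos {y : ℝ} (hy : y ∈ Set.Ioo (-1 / 2 : ℝ) (1 / 2)) : 0 < Real.cos (Real.pi * y) := by
  apply Real.cos_pos_of_mem_Ioo
  have hpi := Real.pi_pos
  constructor <;> nlinarith [hy.1, hy.2]

lemma gr_eq {b y : ℝ} (hy : y ∈ Set.Ioo (-1 / 2 : ℝ) (1 / 2)) :
    gr b y = Real.log (Real.cos (Real.pi * y)) / Real.log b := by
  rw [gr, abs_of_pos (cos_pos hy), Real.logb]

lemma gr_deriv {b y : ℝ} (hy : y ∈ Set.Ioo (-1 / 2 : ℝ) (1 / 2)) :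
    HasDerivAt (gr b) (-(Real.pi / Real.log b) * Real.tan (Real.pi * y)) y := by
  have h0 := cos_pos hy
  have h1 : HasDerivAt (fun y : ℝ => Real.cos (Real.pi * y))
      (-Real.sin (Real.pi * y) * (Real.pi * 1)) y :=
    (Real.hasDerivAt_cos (Real.pi * y)).comp y ((hasDerivAt_id y).const_mul Real.pi)
  have h2 := (h1.log h0.ne').div_const (Real.log b)
  have h3 : (fun y : ℝ => Real.log (Real.cos (Real.pi * y)) / Real.log b) =ᶠ[𝓝 y] gr b := by
    filter_upwards [isOpen_Ioo.mem_nhds hy] with z hz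
    exact (gr_eq hz).symm
  refine (h2.congr_of_eventuallyEq h3.symm).congr_deriv ?_
  rw [Real.tan_eq_sin_div_cos]
  field_simp

/-- the phase function `W(y) = j y + q log_b |cos π y|` -/
noncomputable def Wf (b : ℝ) (q : ℕ) (j : ℤ) (y : ℝ) : ℝ := j * y + q * gr b y

lemma Wf_deriv {b y : ℝ} (q : ℕ) (j : ℤ) (hy : y ∈ Set.Ioo (-1 / 2 : ℝ) (1 / 2)) :
    HasDerivAt (Wf b q j) (j - q * (Real.pi / Real.log b) * Real.tan (Real.pi * y)) y := by
  have h1 := ((hasDerivAt_id y).const_mul (j : ℝ)).add ((gr_deriv (b := b) hy).const_mul (q : ℝ))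
  refine h1.congr_deriv ?_
  ring

lemma tan_lt {y z : ℝ} (hy : y ∈ Set.Ioo (-1 / 2 : ℝ) (1 / 2))
    (hz : z ∈ Set.Ioo (-1 / 2 : ℝ) (1 / 2)) (hyz : y < z) :
    Real.tan (Real.pi * y) < Real.tan (Real.pi * z) := by
  have hpi := Real.pi_pos
  apply Real.tan_lt_tan_of_lt_of_lt_pi_div_two
  · nlinarith [hy.1]
  · nlinarith [hz.2]
  · nlinarith

/-- the derivative is injective -/
lemma Wd_inj {b : ℝ} (hb : 1 < b) {q : ℕ} (hq : 0 < q) (j : ℤ) {y z : ℝ}
    (hy : y ∈ Set.Ioo (-1 / 2 : ℝ) (1 / 2))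
    (hz : z ∈ Set.Ioo (-1 / 2 : ℝ) (1 / 2)) (hyz : y < z) :
    (j - q * (Real.pi / Real.log b) * Real.tan (Real.pi * z)) <
      (j - q * (Real.pi / Real.log b) * Real.tan (Real.pi * y)) := by
  have h1 := tan_lt hy hz hyz
  have hlog := Real.log_pos hb
  have hq' : (0 : ℝ) < q := by exact_mod_cast hq
  have h2 : 0 < (q : ℝ) * (Real.pi / Real.log b) := by positivity
  nlinarith

lemma three {b : ℝ} (hb : 1 < b) {q : ℕ} (hq : 0 < q) (j : ℤ) (c : ℝ) {x y z : ℝ}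
    (hx : x ∈ Set.Ioo (-1 / 2 : ℝ) (1 / 2)) (hy : y ∈ Set.Ioo (-1 / 2 : ℝ) (1 / 2))
    (hz : z ∈ Set.Ioo (-1 / 2 : ℝ) (1 / 2)) (hxy : x < y) (hyz : y < z)
    (h1 : Wf b q j x = c) (h2 : Wf b q j y = c) (h3 : Wf b q j z = c) : False := by
  have hsub : ∀ {p r : ℝ}, p ∈ Set.Ioo (-1 / 2 : ℝ) (1 / 2) → r ∈ Set.Ioo (-1 / 2 : ℝ) (1 / 2) →
      Set.Icc p r ⊆ Set.Ioo (-1 / 2 : ℝ) (1 / 2) := by
    intro p r hp hr w hw
    exact ⟨lt_of_lt_of_le hp.1 hw.1, lt_of_le_of_lt hw.2 hr.2⟩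
  have hroll : ∀ {p r : ℝ}, p ∈ Set.Ioo (-1 / 2 : ℝ) (1 / 2) →
      r ∈ Set.Ioo (-1 / 2 : ℝ) (1 / 2) → p < r → Wf b q j p = Wf b q j r →
      ∃ w ∈ Set.Ioo p r, (j - q * (Real.pi / Real.log b) * Real.tan (Real.pi * w)) = 0 := by
    intro p r hp hr hpr he
    refine exists_hasDerivAt_eq_zero hpr ?_ he
      (f' := fun w => (j - q * (Real.pi / Real.log b) * Real.tan (Real.pi * w))) ?_
    · intro w hw
      exact (Wf_deriv q j (hsub hp hr hw)).continuousAt.continuousWithinAt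
    · intro w hw
      exact Wf_deriv q j (hsub hp hr (Set.Ioo_subset_Icc_self hw))
  obtain ⟨w1, hw1, e1⟩ := hroll hx hy hxy (h1.trans h2.symm)
  obtain ⟨w2, hw2, e2⟩ := hroll hy hz hyz (h2.trans h3.symm)
  have h4 := Wd_inj hb hq j (hsub hx hy (Set.Ioo_subset_Icc_self hw1))
    (hsub hy hz (Set.Ioo_subset_Icc_self hw2)) (hw1.2.trans hw2.1)
  rw [e1, e2] at h4
  exact lt_irrefl _ h4

lemma level_countable {b : ℝ} (hb : 1 < b) {q : ℕ} (hq : 0 < q) (j : ℤ) (c : ℝ) :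
    {y ∈ Set.Ioo (-1 / 2 : ℝ) (1 / 2) | Wf b q j y = c}.Countable := by
  set S := {y ∈ Set.Ioo (-1 / 2 : ℝ) (1 / 2) | Wf b q j y = c} with hS
  have h3 : ∀ x ∈ S, ∀ y ∈ S, ∀ z ∈ S, x < y → y < z → False :=
    fun x hx y hy z hz hxy hyz => three hb hq j c hx.1 hy.1 hz.1 hxy hyz hx.2 hy.2 hz.2
  rcases S.eq_empty_or_nonempty with h | ⟨a, ha⟩
  · rw [h]; exact Set.countable_empty
  · by_cases h : ∃ b ∈ S, b ≠ a
    · obtain ⟨e, he, hea⟩ := h
      have : S ⊆ {a, e} := by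
        intro z hz
        by_contra hcon
        simp only [Set.mem_insert_iff, Set.mem_singleton_iff, not_or] at hcon
        rcases lt_or_gt_of_ne hea with h1 | h1 <;> rcases lt_or_gt_of_ne hcon.1 with h2 | h2 <;>
          rcases lt_or_gt_of_ne hcon.2 with h4 | h4
        · exact h3 z hz e he a ha h4 h1
        · exact h3 e he z hz a ha h4 h2
        · linarith
        · exact h3 e he a ha z hz h1 h2
        · exact h3 z hz a ha e he h2 h1
        · linarith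
        · exact h3 a ha z hz e he h2 h4
        · exact h3 a ha e he z hz h1 h4
      exact (Set.toFinite _).countable.mono this
    · push Not at h
      have : S ⊆ {a} := fun z hz => h z hz
      exact (Set.toFinite _).countable.mono this

end Pool.Agent.Helper84.BD
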