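import Pool.Agent.Helper84.BD.Bases

/-!
# MP_1609c3_nt: in the resonant case the limit law is not uniform
-/

set_option autoImplicit false

namespace Pool.Agent.Helper84.BD

open Filter Topology MeasureTheory

theorem not_uniform {b : ℝ} (hb : 1 < b) {q : ℕ} (hq : 0 < q) (j : ℤ) :
    ∃ s t : ℝ, 0 ≤ s ∧ s ≤ t ∧ t ≤ 1 ∧ limR b q j s t ≠ t - s := by
  have hlog := Real.log_pos hb
  have hpi := Real.pi_pos
  have hq' : (0 : ℝ) < q := by exact_mod_cast hq
  have hq1 : (1 : ℝ) ≤ q := by exact_mod_cast hq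
  set κ : ℝ := q * (Real.pi / Real.log b) with hκ
  have hκ0 : 0 < κ := by positivity
  set y0 : ℝ := Real.arctan (j / κ) / Real.pi with hy0
  have e0 : Real.pi * y0 = Real.arctan (j / κ) := by
    rw [hy0]; field_simp
  have hy0m : y0 ∈ Set.Ioo (-1 / 2 : ℝ) (1 / 2) := by
    have h1 := Real.neg_pi_div_two_lt_arctan (j / κ)
    have h2 := Real.arctan_lt_pi_div_two (j / κ)
    constructor
    · rw [hy0, lt_div_iff₀ hpi]; linarith
    · rw [hy0, div_lt_iff₀ hpi]; linarith
  set D : ℝ → ℝ := fun y => j - κ * Real.tan (Real.pi * y) with hD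
  have hD0 : D y0 = 0 := by
    simp only [hD]
    rw [e0, Real.tan_arctan]
    field_simp
    ring
  have hDd : DifferentiableAt ℝ D y0 := by
    have h1 : DifferentiableAt ℝ Real.tan (Real.pi * y0) :=
      Real.differentiableAt_tan.2 (cos_pos hy0m).ne'
    have h2 : DifferentiableAt ℝ (fun y : ℝ => Real.pi * y) y0 := by fun_prop
    have h3 : DifferentiableAt ℝ (fun y : ℝ => Real.tan (Real.pi * y)) y0 := h1.comp y0 h2
    exact (differentiableAt_const _).sub (h3.const_mul κ)
  obtain ⟨C0, hC0⟩ := hDd.isBigO_sub.bound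
  set C : ℝ := max C0 1 with hC
  have hC1 : 1 ≤ C := le_max_right _ _
  have hCpos : 0 < C := by linarith
  have hev : ∀ᶠ y in 𝓝 y0, |D y| ≤ C * |y - y0| ∧ y ∈ Set.Ioo (-1 / 2 : ℝ) (1 / 2) := by
    filter_upwards [hC0, isOpen_Ioo.mem_nhds hy0m] with y h1 h2
    refine ⟨?_, h2⟩
    rw [hD0, sub_zero, Real.norm_eq_abs, Real.norm_eq_abs] at h1
    refine h1.trans ?_
    gcongr
    exact le_max_left _ _
  obtain ⟨r, hr0, hr⟩ := Metric.eventually_nhds_iff.1 hev
  set M : ℝ := Wf b q j y0 with hM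
  set m1 : ℝ := M - ⌈M⌉ + 1 with hm1
  have hm1pos : 0 < m1 := by
    rw [hm1]; linarith [Int.ceil_lt_add_one M]
  have hm1le : m1 ≤ 1 := by
    rw [hm1]; linarith [Int.le_ceil M]
  set ρ : ℝ := min (r / 2) (min (1 / (2 * C)) m1) with hρ
  have hρ0 : 0 < ρ := by
    rw [hρ]
    exact lt_min (by positivity) (lt_min (by positivity) hm1pos)
  have hρ1 : ρ ≤ r / 2 := min_le_left _ _
  have hρ2 : ρ ≤ 1 / (2 * C) := (min_le_right _ _).trans (min_le_left _ _)
  have hρ3 : ρ ≤ m1 := (min_le_right _ _).trans (min_le_right _ _)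
  have hρC : C * ρ ≤ 1 / 2 := by
    calc C * ρ ≤ C * (1 / (2 * C)) := by gcongr
      _ = 1 / 2 := by field_simp
  set δ : ℝ := C * ρ ^ 2 with hδ
  have hδ0 : 0 < δ := by positivity
  have hδρ : δ ≤ ρ / 2 := by
    rw [hδ]
    nlinarith
  have hδm : δ ≤ m1 := by linarith
  -- the values on `(y0, y0 + ρ)`
  have hval : ∀ y ∈ Set.Ioo y0 (y0 + ρ), M - δ ≤ Wf b q j y ∧ Wf b q j y < M := by
    intro y hy
    have hmem : ∀ z ∈ Set.Icc y0 y, |D z| ≤ C * |z - y0| ∧ z ∈ Set.Ioo (-1 / 2 : ℝ) (1 / 2) := by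
      intro z hz
      apply hr
      rw [Real.dist_eq, abs_of_nonneg (by linarith [hz.1])]
      linarith [hz.2, hy.2]
    obtain ⟨ξ, hξ, he⟩ := exists_hasDerivAt_eq_slope (Wf b q j)
      (fun w => (j - q * (Real.pi / Real.log b) * Real.tan (Real.pi * w))) hy.1
      (fun z hz => (Wf_deriv q j (hmem z hz).2).continuousAt.continuousWithinAt)
      (fun z hz => Wf_deriv q j (hmem z (Set.Ioo_subset_Icc_self hz)).2)
    have hpos : 0 < y - y0 := by linarith [hy.1]
    have he2 : Wf b q j y = M + D ξ * (y - y0) := by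
      have : D ξ = (Wf b q j y - Wf b q j y0) / (y - y0) := he
      rw [this, hM]
      field_simp
      ring
    have hξm := hmem ξ (Set.Ioo_subset_Icc_self hξ)
    have hneg : D ξ < 0 := by
      have := Wd_inj hb hq j hy0m hξm.2 hξ.1
      have h5 : D ξ < D y0 := this
      rw [hD0] at h5
      exact h5
    have habs : |D ξ| ≤ C * ρ := by
      refine hξm.1.trans ?_
      gcongr
      rw [abs_of_nonneg (by linarith [hξ.1])]
      linarith [hξ.2, hy.2]
    rw [abs_of_neg hneg] at habs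
    constructor
    · rw [he2, hδ]
      have h6 : y - y0 ≤ ρ := by linarith [hy.2]
      nlinarith
    · rw [he2]
      nlinarith
  refine ⟨(m1 - δ) / q, m1 / q, div_nonneg (by linarith) hq'.le, by gcongr; linarith, ?_, ?_⟩
  · rw [div_le_one hq']
    linarith
  · have hgt : m1 / q - (m1 - δ) / q < limR b q j ((m1 - δ) / q) (m1 / q) := by
      have e1 : (q : ℝ) * (m1 / q) = m1 := by field_simp
      have e2 : (q : ℝ) * ((m1 - δ) / q) = m1 - δ := by field_simp
      rw [limR, e1, e2]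
      have hint : Integrable (fun y => ((⌈m1 - Wf b q j y⌉ : ℝ) - ⌈m1 - δ - Wf b q j y⌉)) mu0 := by
        have i1 := hhV_int b q j m1 mu0
        have i2 := hhV_int b q j (m1 - δ) mu0
        refine ((i1.sub i2).add (integrable_const δ)).congr (Eventually.of_forall fun y => ?_)
        simp only [hh, Pi.add_apply, Pi.sub_apply]
        ring
      have hset : mu0 (Set.Ioo y0 (y0 + ρ)) = ENNReal.ofReal ρ := by
        rw [mu0, Measure.restrict_apply measurableSet_Ioo]
        have : Set.Ioo y0 (y0 + ρ) ∩ Set.Ioo (-1 / 2 : ℝ) (1 / 2) = Set.Ioo y0 (y0 + ρ) := by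
          apply Set.inter_eq_left.2
          intro z hz
          refine (hr ?_).2
          rw [Real.dist_eq, abs_of_nonneg (by linarith [hz.1])]
          linarith [hz.2]
        rw [this, Real.volume_Ioo]
        congr 1
        ring
      have hlow : ρ ≤ ∫ y, ((⌈m1 - Wf b q j y⌉ : ℝ) - ⌈m1 - δ - Wf b q j y⌉) ∂mu0 := by
        have h1 : ∫ y, (Set.Ioo y0 (y0 + ρ)).indicator (fun _ => (1 : ℝ)) y ∂mu0 = ρ := by
          rw [integral_indicator measurableSet_Ioo]
          simp only [integral_const, MeasurableSet.univ, smul_eq_mul, mul_one, Measure.real,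
            Measure.restrict_apply, Set.univ_inter]
          rw [hset, ENNReal.toReal_ofReal hρ0.le]
        rw [← h1]
        refine integral_mono_of_nonneg (Eventually.of_forall fun y => ?_) hint
          (Eventually.of_forall fun y => ?_)
        · exact Set.indicator_nonneg (fun _ _ => zero_le_one) y
        · have hmono : (⌈m1 - δ - Wf b q j y⌉ : ℝ) ≤ ⌈m1 - Wf b q j y⌉ := by
            exact_mod_cast Int.ceil_mono (by linarith)
          show (Set.Ioo y0 (y0 + ρ)).indicator (fun _ => (1 : ℝ)) y ≤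
            (⌈m1 - Wf b q j y⌉ : ℝ) - ⌈m1 - δ - Wf b q j y⌉
          by_cases hy : y ∈ Set.Ioo y0 (y0 + ρ)
          · rw [Set.indicator_of_mem hy]
            obtain ⟨h3, h4⟩ := hval y hy
            have h5 : ⌈m1 - δ - Wf b q j y⌉ ≤ 1 - ⌈M⌉ := by
              rw [Int.ceil_le]
              push_cast
              rw [hm1]
              linarith
            have h6 : 1 - ⌈M⌉ < ⌈m1 - Wf b q j y⌉ := by
              rw [Int.lt_ceil]
              push_cast
              rw [hm1]
              linarith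
            have h7 : ⌈m1 - δ - Wf b q j y⌉ + 1 ≤ ⌈m1 - Wf b q j y⌉ := by omega
            have h8 : (⌈m1 - δ - Wf b q j y⌉ : ℝ) + 1 ≤ ⌈m1 - Wf b q j y⌉ := by exact_mod_cast h7
            linarith
          · rw [Set.indicator_of_notMem hy]
            linarith
      have e3 : m1 / q - (m1 - δ) / q = (1 / q) * δ := by
        field_simp
        ring
      rw [e3]
      have : δ < ∫ y, ((⌈m1 - Wf b q j y⌉ : ℝ) - ⌈m1 - δ - Wf b q j y⌉) ∂mu0 := by linarith
      gcongr
    exact hgt.ne'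

/-- a resonance makes the significand law fail -/
theorem not_sigLaw_of_exc {b : ℕ} (hb : 2 ≤ b) (h : Exc b) : ¬ SigLaw b := by
  intro hS
  have hb1 : (1 : ℝ) < b := by exact_mod_cast (by omega : 1 < b)
  rcases dichotomy (al b) be with h1 | ⟨q, j, p, h1⟩
  · obtain ⟨l, j, p, hl, hr⟩ := h
    exact h1 l hl j p hr
  · obtain ⟨s, t, hs, hst, ht, hne⟩ := not_uniform hb1 h1.pos j
    apply hne
    have hb0 : (0 : ℝ) < b := by linarith
    have hx1 : (1 : ℝ) ≤ (b : ℝ) ^ s := Real.one_le_rpow hb1.le hs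
    have hxy : (b : ℝ) ^ s ≤ (b : ℝ) ^ t := Real.rpow_le_rpow_of_exponent_le hb1.le hst
    have hyb : (b : ℝ) ^ t ≤ b := by
      calc (b : ℝ) ^ t ≤ (b : ℝ) ^ (1 : ℝ) := Real.rpow_le_rpow_of_exponent_le hb1.le ht
        _ = b := Real.rpow_one _
    have h2 := hS _ _ hx1 hxy hyb
    have e1 : Real.logb b ((b : ℝ) ^ s) = s := Real.logb_rpow hb0 (by linarith)
    have e2 : Real.logb b ((b : ℝ) ^ t) = t := Real.logb_rpow hb0 (by linarith)
    rw [hasFreq_iff, freq_congr fun n => block_hit hb hx1 hxy hyb n, ← logb_sub hx1 hxy, e1, e2]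
      at h2
    exact tendsto_nhds_unique (lim_res hb1 be_irrational h1 hst (by linarith)) h2

end Pool.Agent.Helper84.BD
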