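import Mathlib

/-!
# MP_1609c3_nt: definitions
-/

set_option autoImplicit false

namespace Pool.Agent.Helper84.BD

open Filter Topology

/-- the sequence of the problem: `a(0) = a(1) = 1`, `a(n) = 2 a(n-1) - 3 a(n-2)` -/
def a : ℕ → ℤ
  | 0 => 1
  | 1 => 1
  | n + 2 => 2 * a (n + 1) - 3 * a n

/-- the proportion of the `n < N` with `P n` tends to `L` as `N → ∞` -/
def HasFreq (P : ℕ → Prop) (L : ℝ) : Prop :=
  Tendsto (fun N : ℕ => ({n : ℕ | n < N ∧ P n}.ncard : ℝ) / N) atTop (𝓝 L)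

/-- the significand of `|a(n)|` in base `b` lies in `[x, y)` -/
def Block (b : ℕ) (x y : ℝ) (n : ℕ) : Prop :=
  ∃ k : ℕ, x * b ^ k ≤ |(a n : ℝ)| ∧ |(a n : ℝ)| < y * b ^ k

/-- the significand law (Benford's law for all leading blocks of digits) in base `b` -/
def SigLaw (b : ℕ) : Prop :=
  ∀ x y : ℝ, 1 ≤ x → x ≤ y → y ≤ b → HasFreq (Block b x y) (Real.logb b (y / x))

end Pool.Agent.Helper84.BD
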