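import Pool.Agent.Helper84.BD.Defs

/-!
# MP_1609c3_nt: the sequence `a(n) = Re (1 + i √2)^n` and its leading digits
-/

set_option autoImplicit false

namespace Pool.Agent.Helper84.BD

open Filter Topology

/-- the companion sequence `Im (1 + i √2)^n / √2` -/
def a' : ℕ → ℤ
  | 0 => 0
  | 1 => 1
  | n + 2 => 2 * a' (n + 1) - 3 * a' n

/-- the leading digit of `m` in base `b` (and `0` for `m = 0`) -/
def lead (b m : ℕ) : ℕ := m / b ^ Nat.log b m

/-- the angle `θ = arctan √2` -/
noncomputable def th : ℝ := Real.arctan (Real.sqrt 2)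

lemma sqrt_three_cos : Real.sqrt 3 * Real.cos th = 1 := by
  rw [th, Real.cos_arctan, Real.sq_sqrt (by norm_num)]
  norm_num

lemma sqrt_three_sin : Real.sqrt 3 * Real.sin th = Real.sqrt 2 := by
  rw [th, Real.sin_arctan, Real.sq_sqrt (by norm_num)]
  norm_num
  field_simp

lemma a_eq (n : ℕ) : (a n : ℝ) = Real.sqrt 3 ^ n * Real.cos (n * th) ∧
    (a (n + 1) : ℝ) = Real.sqrt 3 ^ (n + 1) * Real.cos ((n + 1 : ℕ) * th) := by
  have h3 : Real.sqrt 3 ^ 2 = 3 := Real.sq_sqrt (by norm_num)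
  induction n with
  | zero =>
    constructor
    · simp [a]
    · have := sqrt_three_cos
      simp only [zero_add, pow_one, Nat.cast_one, one_mul]
      rw [this]
      simp [a]
  | succ n ih =>
    refine ⟨ih.2, ?_⟩
    have e : a (n + 1 + 1) = 2 * a (n + 1) - 3 * a n := rfl
    rw [e]
    push_cast
    rw [ih.1, ih.2]
    have e1 : ((n : ℝ) + 1 + 1) * th = (n + 1) * th + th := by ring
    have e2 : (n : ℝ) * th = (n + 1) * th - th := by ring
    push_cast
    rw [e1, e2, Real.cos_add, Real.cos_sub]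
    have hc := sqrt_three_cos
    set C := Real.cos (((n : ℝ) + 1) * th)
    set D := Real.sin (((n : ℝ) + 1) * th)
    have e3 : Real.sqrt 3 ^ (n + 1 + 1) = 3 * Real.sqrt 3 ^ n := by
      rw [pow_succ, pow_succ, mul_assoc, ← sq, h3]; ring
    have e4 : Real.sqrt 3 ^ (n + 1) = Real.sqrt 3 ^ n * Real.sqrt 3 := pow_succ _ _
    rw [e3, e4]
    have e5 : Real.sqrt 3 * 1 = 3 * Real.cos th := by
      rw [← hc]
      calc Real.sqrt 3 * (Real.sqrt 3 * Real.cos th) = Real.sqrt 3 ^ 2 * Real.cos th := by ring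
        _ = 3 * Real.cos th := by rw [h3]
    have e6 : Real.sqrt 3 = 3 * Real.cos th := by linarith
    rw [mul_one] at e5
    linear_combination (2 * Real.sqrt 3 ^ n * C) * e6

lemma a'_eq (n : ℕ) : Real.sqrt 2 * (a' n : ℝ) = Real.sqrt 3 ^ n * Real.sin (n * th) ∧
    Real.sqrt 2 * (a' (n + 1) : ℝ) = Real.sqrt 3 ^ (n + 1) * Real.sin ((n + 1 : ℕ) * th) := by
  have h3 : Real.sqrt 3 ^ 2 = 3 := Real.sq_sqrt (by norm_num)
  induction n with
  | zero =>
    constructor
    · simp [a']
    · have := sqrt_three_sin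
      simp only [zero_add, pow_one, Nat.cast_one, one_mul]
      rw [this]
      simp [a']
  | succ n ih =>
    refine ⟨ih.2, ?_⟩
    have e : a' (n + 1 + 1) = 2 * a' (n + 1) - 3 * a' n := rfl
    rw [e]
    push_cast
    have e0 : Real.sqrt 2 * (2 * (a' (n + 1) : ℝ) - 3 * a' n) =
        2 * (Real.sqrt 2 * a' (n + 1)) - 3 * (Real.sqrt 2 * a' n) := by ring
    rw [e0, ih.1, ih.2]
    have e1 : ((n : ℝ) + 1 + 1) * th = (n + 1) * th + th := by ring
    have e2 : (n : ℝ) * th = (n + 1) * th - th := by ring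
    push_cast
    rw [e1, e2, Real.sin_add, Real.sin_sub]
    have hc := sqrt_three_cos
    set C := Real.cos (((n : ℝ) + 1) * th)
    set D := Real.sin (((n : ℝ) + 1) * th)
    have e3 : Real.sqrt 3 ^ (n + 1 + 1) = 3 * Real.sqrt 3 ^ n := by
      rw [pow_succ, pow_succ, mul_assoc, ← sq, h3]; ring
    have e4 : Real.sqrt 3 ^ (n + 1) = Real.sqrt 3 ^ n * Real.sqrt 3 := pow_succ _ _
    rw [e3, e4]
    have e5 : Real.sqrt 3 * 1 = 3 * Real.cos th := by
      rw [← hc]
      calc Real.sqrt 3 * (Real.sqrt 3 * Real.cos th) = Real.sqrt 3 ^ 2 * Real.cos th := by ring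
        _ = 3 * Real.cos th := by rw [h3]
    have e6 : Real.sqrt 3 = 3 * Real.cos th := by linarith
    linear_combination (2 * Real.sqrt 3 ^ n * D) * e6

lemma a_odd (n : ℕ) : a n % 2 = 1 ∧ a (n + 1) % 2 = 1 := by
  induction n with
  | zero => simp [a]
  | succ n ih =>
    refine ⟨ih.2, ?_⟩
    have e : a (n + 1 + 1) = 2 * a (n + 1) - 3 * a n := rfl
    rw [e]
    have := ih.1
    omega

lemma a_ne (n : ℕ) : a n ≠ 0 := by
  intro h
  have := (a_odd n).1
  rw [h] at this
  omega

lemma a'_mod (n : ℕ) : a' (n + 1) % 3 ≠ 0 := by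
  induction n with
  | zero => simp [a']
  | succ n ih =>
    have e : a' (n + 1 + 1) = 2 * a' (n + 1) - 3 * a' n := rfl
    rw [e]
    omega

lemma a'_ne (n : ℕ) (hn : n ≠ 0) : a' n ≠ 0 := by
  obtain ⟨m, rfl⟩ := Nat.exists_eq_succ_of_ne_zero hn
  intro h
  apply a'_mod m
  rw [h]
  rfl

/-- the number `β = θ / π` -/
noncomputable def be : ℝ := th / Real.pi

/-- `θ/π` is irrational -/
theorem be_irrational : Irrational be := by
  rintro ⟨r, hr⟩
  have hd : (r.den : ℝ) ≠ 0 := by exact_mod_cast r.den_nz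
  have h1 : (r.den : ℝ) * th = r.num * Real.pi := by
    have h2 : (r : ℝ) = r.num / r.den := Rat.cast_def r
    rw [h2, be, div_eq_div_iff hd Real.pi_ne_zero] at hr
    linarith
  have h3 : Real.sin (r.den * th) = 0 := by
    rw [h1]
    exact Real.sin_int_mul_pi _
  have h4 := (a'_eq r.den).1
  rw [h3, mul_zero] at h4
  have h5 : (a' r.den : ℝ) = 0 := by
    rcases mul_eq_zero.1 h4 with h | h
    · exact absurd h (by positivity)
    · exact h
  exact a'_ne r.den r.den_nz (by exact_mod_cast h5)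

lemma abs_a (n : ℕ) : |(a n : ℝ)| = Real.sqrt 3 ^ n * |Real.cos (n * th)| := by
  rw [(a_eq n).1, abs_mul, abs_of_nonneg (by positivity)]

lemma abs_a_ge (n : ℕ) : 1 ≤ |(a n : ℝ)| := by
  have : (1 : ℤ) ≤ |a n| := Int.one_le_abs (a_ne n)
  exact_mod_cast this

lemma logb_a {b : ℝ} (n : ℕ) : Real.logb b |(a n : ℝ)| =
    n * (Real.log 3 / (2 * Real.log b)) + Real.logb b |Real.cos (Real.pi * (n * be))| := by
  have e : Real.pi * (n * be) = n * th := by
    rw [be]
    have := Real.pi_ne_zero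
    field_simp
  rw [e]
  have h1 := abs_a n
  have h2 := abs_a_ge n
  have hc : |Real.cos (n * th)| ≠ 0 := by
    intro h
    rw [h1, h, mul_zero] at h2
    norm_num at h2
  have h3 : Real.sqrt 3 ^ n ≠ 0 := by positivity
  rw [h1, Real.logb, Real.log_mul h3 hc, Real.log_pow, Real.log_sqrt (by norm_num), Real.logb]
  by_cases hb : Real.log b = 0
  · simp [hb]
  · field_simp

/-! ### leading digits -/

lemma lead_iff {b m d : ℕ} (hb : 2 ≤ b) (hd1 : 1 ≤ d) (hd : d < b) (hm : m ≠ 0) :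
    lead b m = d ↔ ∃ k : ℕ, d * b ^ k ≤ m ∧ m < (d + 1) * b ^ k := by
  constructor
  · intro h
    refine ⟨Nat.log b m, ?_, ?_⟩
    · rw [← h]
      exact Nat.div_mul_le_self _ _
    · rw [← h]
      exact Nat.lt_mul_of_div_lt (Nat.lt_succ_self _) (by positivity)
  · rintro ⟨k, h1, h2⟩
    have h3 : Nat.log b m = k := by
      rw [Nat.log_eq_iff (Or.inr ⟨by omega, hm⟩)]
      constructor
      · calc b ^ k = 1 * b ^ k := (one_mul _).symm
          _ ≤ d * b ^ k := Nat.mul_le_mul_right _ hd1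
          _ ≤ m := h1
      · calc m < (d + 1) * b ^ k := h2
          _ ≤ b * b ^ k := Nat.mul_le_mul_right _ hd
          _ = b ^ (k + 1) := by ring
    rw [lead, h3]
    exact Nat.div_eq_of_lt_le h1 h2

/-- blocks `[x, y)` of significands as intervals modulo one -/
lemma block_iff {b : ℕ} (hb : 2 ≤ b) {x y : ℝ} (hx : 1 ≤ x) (hy1 : 1 ≤ y) (hy : y ≤ b) {A : ℝ}
    (hA : 1 ≤ A) : (∃ k : ℕ, x * b ^ k ≤ A ∧ A < y * b ^ k) ↔
      ∃ k : ℤ, Real.logb b x ≤ Real.logb b A + k ∧ Real.logb b A + k < Real.logb b y := by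
  have hb1 : (1 : ℝ) < b := by exact_mod_cast (by omega : 1 < b)
  have hb0 : (0 : ℝ) < b := by linarith
  have hx0 : 0 < x := by linarith
  have hy0 : 0 < y := by linarith
  have hA0 : 0 < A := by linarith
  have key : ∀ (z : ℝ) (k : ℤ), 0 < z → Real.logb b (z * (b : ℝ) ^ k) = Real.logb b z + k := by
    intro z k hz
    have h1 : Real.logb b ((b : ℝ) ^ k) = k := by
      rw [Real.logb, Real.log_zpow]
      have := (Real.log_pos hb1).ne'
      field_simp
    rw [Real.logb_mul hz.ne' (by positivity), h1]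
  constructor
  · rintro ⟨k, h1, h2⟩
    refine ⟨-(k : ℤ), ?_, ?_⟩
    · have h3 := (Real.logb_le_logb hb1 (by positivity) hA0).2 h1
      have h4 := key x k hx0
      rw [zpow_natCast] at h4
      rw [h4] at h3
      push_cast at h3 ⊢
      linarith
    · have h3 := (Real.logb_lt_logb_iff hb1 hA0 (by positivity)).2 h2
      have h4 := key y k hy0
      rw [zpow_natCast] at h4
      rw [h4] at h3
      push_cast at h3 ⊢
      linarith
  · rintro ⟨k, h1, h2⟩
    have hlA : 0 ≤ Real.logb b A := Real.logb_nonneg hb1 hA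
    have hly : Real.logb b y ≤ 1 := by
      rw [← Real.logb_self_eq_one hb1]
      exact (Real.logb_le_logb hb1 hy0 hb0).2 hy
    have hk : k ≤ 0 := by
      have : (k : ℝ) < 1 := by linarith
      have : k < 1 := by exact_mod_cast this
      omega
    obtain ⟨m, hm⟩ := Int.eq_ofNat_of_zero_le (show 0 ≤ -k by omega)
    refine ⟨m, ?_, ?_⟩
    · rw [← Real.logb_le_logb hb1 (by positivity) hA0]
      have h4 := key x m hx0
      rw [zpow_natCast] at h4
      rw [h4]
      have h5 : ((m : ℤ) : ℝ) = -(k : ℝ) := by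
        rw [← Int.cast_neg, hm]
      rw [h5]
      linarith
    · rw [← Real.logb_lt_logb_iff hb1 hA0 (by positivity)]
      have h4 := key y m hy0
      rw [zpow_natCast] at h4
      rw [h4]
      have h5 : ((m : ℤ) : ℝ) = -(k : ℝ) := by
        rw [← Int.cast_neg, hm]
      rw [h5]
      linarith

end Pool.Agent.Helper84.BD
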