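import Pool.Agent.Helper84.BD.Lim
import Pool.Agent.Helper84.BD.Seq

/-!
# MP_1609c3_nt: from `n α + log_b |cos π n β|` to leading digits
-/

set_option autoImplicit false

namespace Pool.Agent.Helper84.BD

open Filter Topology MeasureTheory

lemma hasFreq_iff (P : ℕ → Prop) (L : ℝ) : HasFreq P L ↔ Tendsto (freq P) atTop (𝓝 L) := by
  classical
  have e : (fun N : ℕ => ({n : ℕ | n < N ∧ P n}.ncard : ℝ) / N) = freq P := by
    funext N
    have : {n : ℕ | n < N ∧ P n} = (((Finset.range N).filter P : Finset ℕ) : Set ℕ) := by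
      ext n; simp
    rw [this, Set.ncard_coe_finset, freq]
  rw [HasFreq, e]

/-- the first digit law in base `b` -/
def DigitLaw (b : ℕ) : Prop :=
  ∀ d : ℕ, 1 ≤ d → d < b → HasFreq (fun n => lead b (a n).natAbs = d) (Real.logb b (1 + 1 / d))

/-- the number `α` for the base `b` -/
noncomputable def al (b : ℕ) : ℝ := Real.log 3 / (2 * Real.log b)

lemma natAbs_cast (n : ℕ) : (((a n).natAbs : ℕ) : ℝ) = |(a n : ℝ)| := by
  rw [Nat.cast_natAbs, Int.cast_abs]

lemma block_hit {b : ℕ} (hb : 2 ≤ b) {x y : ℝ} (hx : 1 ≤ x) (hxy : x ≤ y) (hy : y ≤ b) (n : ℕ) :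
    Block b x y n ↔ Hit (us b (al b) be) (Real.logb b x) (Real.logb b y) n := by
  rw [Block, block_iff hb hx (hx.trans hxy) hy (abs_a_ge n), logb_a n, Hit, us, gr, al]

lemma digit_block {b : ℕ} (hb : 2 ≤ b) {d : ℕ} (hd1 : 1 ≤ d) (hd : d < b) (n : ℕ) :
    lead b (a n).natAbs = d ↔ Block b d (d + 1) n := by
  rw [lead_iff hb hd1 hd (Int.natAbs_ne_zero.2 (a_ne n)), Block]
  refine exists_congr fun k => ?_
  rw [← natAbs_cast]
  constructor
  · rintro ⟨h1, h2⟩
    constructor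
    · exact_mod_cast h1
    · exact_mod_cast h2
  · rintro ⟨h1, h2⟩
    constructor
    · exact_mod_cast h1
    · exact_mod_cast h2

lemma logb_range {b : ℕ} (hb : 2 ≤ b) {x y : ℝ} (hx : 1 ≤ x) (hxy : x ≤ y) (hy : y ≤ b) :
    Real.logb b x ≤ Real.logb b y ∧ Real.logb b y ≤ Real.logb b x + 1 := by
  have hb1 : (1 : ℝ) < b := by exact_mod_cast (by omega : 1 < b)
  have hx0 : 0 < x := by linarith
  have hy0 : 0 < y := by linarith
  refine ⟨(Real.logb_le_logb hb1 hx0 hy0).2 hxy, ?_⟩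
  have h1 : 0 ≤ Real.logb b x := Real.logb_nonneg hb1 hx
  have h2 : Real.logb b y ≤ 1 := by
    rw [← Real.logb_self_eq_one hb1]
    exact (Real.logb_le_logb hb1 hy0 (by linarith)).2 hy
  linarith

lemma logb_sub {b : ℕ} {x y : ℝ} (hx : 1 ≤ x) (hxy : x ≤ y) :
    Real.logb b y - Real.logb b x = Real.logb b (y / x) := by
  rw [Real.logb_div (by linarith) (by linarith)]

/-- in every integer base the limits exist -/
theorem block_exists {b : ℕ} (hb : 2 ≤ b) {x y : ℝ} (hx : 1 ≤ x) (hxy : x ≤ y) (hy : y ≤ b) :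
    ∃ L, HasFreq (Block b x y) L := by
  have hb1 : (1 : ℝ) < b := by exact_mod_cast (by omega : 1 < b)
  obtain ⟨h1, h2⟩ := logb_range hb hx hxy hy
  obtain ⟨L, hL⟩ := lim_exists (α := al b) hb1 be_irrational h1 h2
  refine ⟨L, (hasFreq_iff _ _).2 ?_⟩
  rw [freq_congr fun n => block_hit hb hx hxy hy n]
  exact hL

theorem sigLaw_of_nonres {b : ℕ} (hb : 2 ≤ b)
    (h : ∀ l : ℤ, l ≠ 0 → ∀ j p : ℤ, (l : ℝ) * al b + j * be ≠ p) : SigLaw b := by
  intro x y hx hxy hy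
  obtain ⟨h1, h2⟩ := logb_range hb hx hxy hy
  rw [hasFreq_iff, freq_congr fun n => block_hit hb hx hxy hy n, ← logb_sub hx hxy]
  exact lim_nonres be_irrational h h1 h2

theorem digitLaw_of_sigLaw {b : ℕ} (hb : 2 ≤ b) (h : SigLaw b) : DigitLaw b := by
  intro d hd1 hd
  have hd1' : (1 : ℝ) ≤ d := by exact_mod_cast hd1
  have hd' : (d : ℝ) + 1 ≤ b := by exact_mod_cast hd
  have h1 := h d (d + 1) hd1' (by linarith) hd'
  have e : ((d : ℝ) + 1) / d = 1 + 1 / d := by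
    field_simp
  rw [e] at h1
  rw [hasFreq_iff] at h1 ⊢
  rw [freq_congr fun n => digit_block hb hd1 hd n]
  exact h1

theorem digit_exists {b : ℕ} (hb : 2 ≤ b) {d : ℕ} (hd1 : 1 ≤ d) (hd : d < b) :
    ∃ L, HasFreq (fun n => lead b (a n).natAbs = d) L := by
  have hd1' : (1 : ℝ) ≤ d := by exact_mod_cast hd1
  have hd' : (d : ℝ) + 1 ≤ b := by exact_mod_cast hd
  obtain ⟨L, hL⟩ := block_exists hb hd1' (by linarith : (d : ℝ) ≤ d + 1) hd'
  refine ⟨L, ?_⟩
  rw [hasFreq_iff] at hL ⊢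
  rw [freq_congr fun n => digit_block hb hd1 hd n]
  exact hL

end Pool.Agent.Helper84.BD
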