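import Pool.Agent.Helper84.BD.Conc

/-!
# MP_1609c3_nt: how far the limit law in the resonant case can be from the uniform law
-/

set_option autoImplicit false

namespace Pool.Agent.Helper84.BD

open Filter Topology MeasureTheory
open scoped ENNReal

/-- the sawtooth function -/
noncomputable def hh (z : ℝ) : ℝ := ⌈z⌉ - z - 1 / 2

/-- the primitive of the sawtooth function -/
noncomputable def HH (z : ℝ) : ℝ := Int.fract z * (1 - Int.fract z) / 2

lemma hh_abs (z : ℝ) : |hh z| ≤ 1 / 2 := by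
  rw [abs_le, hh]
  constructor
  · linarith [Int.le_ceil z]
  · linarith [Int.ceil_lt_add_one z]

lemma HH_nonneg (z : ℝ) : 0 ≤ HH z := by
  have h1 := Int.fract_nonneg z
  have h2 := Int.fract_lt_one z
  rw [HH]
  have : 0 ≤ Int.fract z * (1 - Int.fract z) := mul_nonneg h1 (by linarith)
  linarith

lemma HH_le (z : ℝ) : HH z ≤ 1 / 8 := by
  rw [HH]
  nlinarith [sq_nonneg (Int.fract z - 1 / 2)]

lemma HH_cont : Continuous HH := by
  have h : ContinuousOn (fun x : ℝ => x * (1 - x) / 2) (Set.Icc 0 1) := by fun_prop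
  exact h.comp_fract'' (by norm_num)

lemma HH_deriv {z : ℝ} (hz : ∀ k : ℤ, z ≠ k) : HasDerivAt HH (hh z) z := by
  have h1 : (⌊z⌋ : ℝ) < z := lt_of_le_of_ne (Int.floor_le z) (hz _).symm
  have h2 : z < ⌊z⌋ + 1 := Int.lt_floor_add_one z
  have h3 : HH =ᶠ[𝓝 z] fun x => (x - ⌊z⌋) * (1 - (x - ⌊z⌋)) / 2 := by
    filter_upwards [isOpen_Ioo.mem_nhds (⟨h1, h2⟩ : z ∈ Set.Ioo (⌊z⌋ : ℝ) (⌊z⌋ + 1))] with x hx
    have h4 : ⌊x⌋ = ⌊z⌋ := by
      rw [Int.floor_eq_iff]
      exact ⟨hx.1.le, hx.2⟩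
    rw [HH, ← Int.self_sub_floor, h4]
  have h5 : HasDerivAt (fun x : ℝ => (x - ⌊z⌋) * (1 - (x - ⌊z⌋)) / 2)
      ((1 * (1 - (z - ⌊z⌋)) + (z - ⌊z⌋) * (0 - 1)) / 2) z := by
    have e1 : HasDerivAt (fun x : ℝ => x - ⌊z⌋) 1 z := (hasDerivAt_id z).sub_const _
    have e2 : HasDerivAt (fun x : ℝ => 1 - (x - ⌊z⌋)) (0 - 1) z :=
      (hasDerivAt_const z (1 : ℝ)).sub e1
    exact (e1.mul e2).div_const 2
  refine (h5.congr_of_eventuallyEq h3).congr_deriv ?_
  have h6 : ⌈z⌉ = ⌊z⌋ + 1 := by
    rw [Int.ceil_eq_iff]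
    push_cast
    exact ⟨by linarith, h2.le⟩
  rw [hh, h6]
  push_cast
  ring

lemma hh_meas : Measurable hh := by
  unfold hh
  fun_prop

lemma gr_meas (b : ℝ) : Measurable (gr b) := by
  unfold gr Real.logb
  fun_prop

lemma Wf_meas (b : ℝ) (q : ℕ) (j : ℤ) : Measurable (Wf b q j) := by
  have := gr_meas b
  unfold Wf
  fun_prop

lemma hhV_meas (b : ℝ) (q : ℕ) (j : ℤ) (A : ℝ) : Measurable fun y => hh (A - Wf b q j y) :=
  hh_meas.comp ((Wf_meas b q j).const_sub A)

lemma hhV_int (b : ℝ) (q : ℕ) (j : ℤ) (A : ℝ) (μ : Measure ℝ) [IsFiniteMeasure μ] :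
    Integrable (fun y => hh (A - Wf b q j y)) μ :=
  Integrable.of_bound (hhV_meas b q j A).aestronglyMeasurable (1 / 2)
    (Eventually.of_forall fun y => by rw [Real.norm_eq_abs]; exact hh_abs _)

lemma hhV_iint (b : ℝ) (q : ℕ) (j : ℤ) (A : ℝ) (x y : ℝ) :
    IntervalIntegrable (fun y => hh (A - Wf b q j y)) volume x y := by
  constructor
  · exact hhV_int b q j A (volume.restrict (Set.Ioc x y))
  · exact hhV_int b q j A (volume.restrict (Set.Ioc y x))

lemma tan_cont {a c : ℝ} (ha : -1 / 2 < a) (hc : c < 1 / 2) :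
    ContinuousOn (fun y : ℝ => Real.tan (Real.pi * y)) (Set.Icc a c) := by
  intro y hy
  have h1 : y ∈ Set.Ioo (-1 / 2 : ℝ) (1 / 2) := ⟨lt_of_lt_of_le ha hy.1, lt_of_le_of_lt hy.2 hc⟩
  have h2 : ContinuousAt Real.tan (Real.pi * y) := Real.continuousAt_tan.2 (cos_pos h1).ne'
  have h3 : ContinuousAt (fun y : ℝ => Real.pi * y) y := by fun_prop
  exact (ContinuousAt.comp (f := fun y : ℝ => Real.pi * y) h2 h3).continuousWithinAt

lemma logcos_deriv {y : ℝ} (hy : y ∈ Set.Ioo (-1 / 2 : ℝ) (1 / 2)) :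
    HasDerivAt (fun y : ℝ => -(Real.log (Real.cos (Real.pi * y)) / Real.pi))
      (Real.tan (Real.pi * y)) y := by
  have h0 := cos_pos hy
  have h1 : HasDerivAt (fun y : ℝ => Real.cos (Real.pi * y))
      (-Real.sin (Real.pi * y) * (Real.pi * 1)) y :=
    (Real.hasDerivAt_cos (Real.pi * y)).comp y ((hasDerivAt_id y).const_mul Real.pi)
  have h2 := ((h1.log h0.ne').div_const Real.pi).neg
  refine h2.congr_deriv ?_
  rw [Real.tan_eq_sin_div_cos]
  have := Real.pi_ne_zero
  field_simp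

/-- integral of the tangent over `[0, a]` -/
lemma tan_int {a : ℝ} (ha0 : 0 ≤ a) (ha : a < 1 / 2) :
    ∫ y in (0 : ℝ)..a, Real.tan (Real.pi * y) = -(Real.log (Real.cos (Real.pi * a)) / Real.pi) := by
  rw [intervalIntegral.integral_eq_sub_of_hasDerivAt
    (f := fun y : ℝ => -(Real.log (Real.cos (Real.pi * y)) / Real.pi))]
  · simp
  · intro y hy
    rw [Set.uIcc_of_le ha0] at hy
    exact logcos_deriv ⟨by linarith [hy.1], by linarith [hy.2]⟩
  · apply ContinuousOn.intervalIntegrable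
    rw [Set.uIcc_of_le ha0]
    exact tan_cont (by linarith) ha

lemma tan_int' {a : ℝ} (ha0 : 0 ≤ a) (ha : a < 1 / 2) :
    ∫ y in (-a)..0, -Real.tan (Real.pi * y) = -(Real.log (Real.cos (Real.pi * a)) / Real.pi) := by
  rw [← tan_int ha0 ha]
  have h := intervalIntegral.integral_comp_neg (a := (0 : ℝ)) (b := a)
    (f := fun y => -Real.tan (Real.pi * y))
  rw [neg_zero] at h
  rw [← h]
  refine intervalIntegral.integral_congr fun y _ => ?_
  show -Real.tan (Real.pi * -y) = Real.tan (Real.pi * y)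
  rw [mul_neg, Real.tan_neg, neg_neg]

theorem est1 {b : ℝ} (hb : 1 < b) {q : ℕ} (hq : 0 < q) (j : ℤ) (A : ℝ) {a : ℝ} (ha0 : 0 ≤ a)
    (ha : a < 1 / 2) :
    |(j : ℝ)| * |∫ y in (-a)..a, hh (A - Wf b q j y)| ≤
      1 / 8 + q * (-Real.log (Real.cos (Real.pi * a)) / Real.log b) := by
  have hlog := Real.log_pos hb
  have hpi := Real.pi_pos
  have hq' : (0 : ℝ) < q := by exact_mod_cast hq
  set κ : ℝ := q * (Real.pi / Real.log b) with hκ
  have hκ0 : 0 < κ := by positivity
  have hsub : Set.Icc (-a) a ⊆ Set.Ioo (-1 / 2 : ℝ) (1 / 2) := fun y hy =>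
    ⟨by linarith [hy.1], by linarith [hy.2]⟩
  have hle : -a ≤ a := by linarith
  have hWc : ContinuousOn (Wf b q j) (Set.Icc (-a) a) := fun y hy =>
    (Wf_deriv q j (hsub hy)).continuousAt.continuousWithinAt
  set S : Set ℝ := {y ∈ Set.Ioo (-1 / 2 : ℝ) (1 / 2) | ∃ k : ℤ, Wf b q j y = A - k} with hS
  have hSc : S.Countable := by
    have : S = ⋃ k : ℤ, {y ∈ Set.Ioo (-1 / 2 : ℝ) (1 / 2) | Wf b q j y = A - k} := by
      ext y
      simp only [hS, Set.mem_ofPred_eq, Set.mem_iUnion, exists_and_left]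
    rw [this]
    exact Set.countable_iUnion fun k => level_countable hb hq j _
  have htc := tan_cont (a := -a) (c := a) (by linarith) ha
  have hint1 := hhV_iint b q j A (-a) a
  have hint2 : IntervalIntegrable
      (fun y => hh (A - Wf b q j y) * (-j + κ * Real.tan (Real.pi * y))) volume (-a) a := by
    apply hint1.mul_continuousOn
    rw [Set.uIcc_of_le hle]
    exact continuousOn_const.add (continuousOn_const.mul htc)
  have hint3 : IntervalIntegrable
      (fun y => hh (A - Wf b q j y) * Real.tan (Real.pi * y)) volume (-a) a := by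
    apply hint1.mul_continuousOn
    rw [Set.uIcc_of_le hle]
    exact htc
  have hftc := integral_eq_of_hasDerivAt_off_countable_of_le
    (fun y => HH (A - Wf b q j y))
    (fun y => hh (A - Wf b q j y) * (-j + κ * Real.tan (Real.pi * y))) hle hSc
    (HH_cont.comp_continuousOn (continuousOn_const.sub hWc))
    (by
      intro y hy
      have hy1 : y ∈ Set.Ioo (-1 / 2 : ℝ) (1 / 2) := hsub (Set.Ioo_subset_Icc_self hy.1)
      have h1 : ∀ k : ℤ, A - Wf b q j y ≠ k := by
        intro k hk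
        exact hy.2 ⟨hy1, k, by linarith⟩
      have h2 : HasDerivAt (fun y => A - Wf b q j y)
          (0 - (j - q * (Real.pi / Real.log b) * Real.tan (Real.pi * y))) y :=
        (hasDerivAt_const y A).sub (Wf_deriv q j hy1)
      have h3 := (HH_deriv h1).comp y h2
      refine h3.congr_deriv ?_
      rw [hκ]
      ring)
    hint2
  have hsplit : ∫ y in (-a)..a, hh (A - Wf b q j y) * (-j + κ * Real.tan (Real.pi * y)) =
      -j * (∫ y in (-a)..a, hh (A - Wf b q j y)) +
        κ * ∫ y in (-a)..a, hh (A - Wf b q j y) * Real.tan (Real.pi * y) := by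
    rw [← intervalIntegral.integral_const_mul, ← intervalIntegral.integral_const_mul,
      ← intervalIntegral.integral_add (hint1.const_mul _) (hint3.const_mul _)]
    refine intervalIntegral.integral_congr fun y _ => ?_
    show hh (A - Wf b q j y) * (-j + κ * Real.tan (Real.pi * y)) = _
    ring
  -- the integral with the tangent
  have htb : |∫ y in (-a)..a, hh (A - Wf b q j y) * Real.tan (Real.pi * y)| ≤
      -(Real.log (Real.cos (Real.pi * a)) / Real.pi) := by
    have h1 : IntervalIntegrable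
      (fun y => hh (A - Wf b q j y) * Real.tan (Real.pi * y)) volume (-a) 0 := by
      apply (hhV_iint b q j A (-a) 0).mul_continuousOn
      rw [Set.uIcc_of_le (by linarith)]
      exact tan_cont (by linarith) (by linarith)
    have h2 : IntervalIntegrable
      (fun y => hh (A - Wf b q j y) * Real.tan (Real.pi * y)) volume 0 a := by
      apply (hhV_iint b q j A 0 a).mul_continuousOn
      rw [Set.uIcc_of_le ha0]
      exact tan_cont (by linarith) ha
    rw [← intervalIntegral.integral_add_adjacent_intervals h1 h2]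
    have hi1 : IntervalIntegrable (fun y : ℝ => -Real.tan (Real.pi * y)) volume (-a) 0 := by
      apply ContinuousOn.intervalIntegrable
      rw [Set.uIcc_of_le (by linarith)]
      exact (tan_cont (by linarith) (by linarith)).neg
    have hi2 : IntervalIntegrable (fun y : ℝ => Real.tan (Real.pi * y)) volume 0 a := by
      apply ContinuousOn.intervalIntegrable
      rw [Set.uIcc_of_le ha0]
      exact tan_cont (by linarith) ha
    have h3 : ‖∫ y in (-a)..0, hh (A - Wf b q j y) * Real.tan (Real.pi * y)‖ ≤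
        ∫ y in (-a)..0, (1 / 2) * -Real.tan (Real.pi * y) := by
      refine intervalIntegral.norm_integral_le_of_norm_le (by linarith)
        (Eventually.of_forall fun y hy => ?_) (hi1.const_mul _)
      have hy1 : y ∈ Set.Ioo (-1 / 2 : ℝ) (1 / 2) := ⟨by linarith [hy.1], by linarith [hy.2]⟩
      have h4 : Real.tan (Real.pi * y) ≤ 0 := by
        rw [Real.tan_eq_sin_div_cos]
        apply div_nonpos_of_nonpos_of_nonneg _ (cos_pos hy1).le
        apply Real.sin_nonpos_of_nonpos_of_neg_pi_le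
        · nlinarith [hy.2]
        · nlinarith [hy1.1]
      rw [norm_mul, Real.norm_eq_abs, Real.norm_eq_abs, abs_of_nonpos h4]
      exact mul_le_mul_of_nonneg_right (hh_abs _) (by linarith)
    have h5 : ‖∫ y in (0 : ℝ)..a, hh (A - Wf b q j y) * Real.tan (Real.pi * y)‖ ≤
        ∫ y in (0 : ℝ)..a, (1 / 2) * Real.tan (Real.pi * y) := by
      refine intervalIntegral.norm_integral_le_of_norm_le ha0
        (Eventually.of_forall fun y hy => ?_) (hi2.const_mul _)
      have hy1 : y ∈ Set.Ioo (-1 / 2 : ℝ) (1 / 2) := ⟨by linarith [hy.1], by linarith [hy.2]⟩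
      have h4 : 0 ≤ Real.tan (Real.pi * y) := by
        rw [Real.tan_eq_sin_div_cos]
        apply div_nonneg _ (cos_pos hy1).le
        apply Real.sin_nonneg_of_nonneg_of_le_pi
        · nlinarith [hy.1]
        · nlinarith [hy1.2]
      rw [norm_mul, Real.norm_eq_abs, Real.norm_eq_abs, abs_of_nonneg h4]
      exact mul_le_mul_of_nonneg_right (hh_abs _) h4
    rw [intervalIntegral.integral_const_mul, tan_int' ha0 ha] at h3
    rw [intervalIntegral.integral_const_mul, tan_int ha0 ha] at h5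
    rw [Real.norm_eq_abs] at h3 h5
    calc _ ≤ |∫ y in (-a)..0, hh (A - Wf b q j y) * Real.tan (Real.pi * y)| +
        |∫ y in (0 : ℝ)..a, hh (A - Wf b q j y) * Real.tan (Real.pi * y)| := abs_add_le _ _
      _ ≤ _ := add_le_add h3 h5
      _ = _ := by ring
  have hH : |HH (A - Wf b q j a) - HH (A - Wf b q j (-a))| ≤ 1 / 8 := by
    rw [abs_le]
    constructor <;> linarith [HH_nonneg (A - Wf b q j a), HH_nonneg (A - Wf b q j (-a)),
      HH_le (A - Wf b q j a), HH_le (A - Wf b q j (-a))]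
  rw [hsplit] at hftc
  set I := ∫ y in (-a)..a, hh (A - Wf b q j y) with hI
  set J := ∫ y in (-a)..a, hh (A - Wf b q j y) * Real.tan (Real.pi * y) with hJ
  have e1 : (j : ℝ) * I = κ * J - (HH (A - Wf b q j a) - HH (A - Wf b q j (-a))) := by
    linarith
  rw [← abs_mul, e1]
  calc |κ * J - (HH (A - Wf b q j a) - HH (A - Wf b q j (-a)))| ≤
      |κ * J| + |HH (A - Wf b q j a) - HH (A - Wf b q j (-a))| := abs_sub _ _
    _ ≤ κ * (-(Real.log (Real.cos (Real.pi * a)) / Real.pi)) + 1 / 8 := by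
        rw [abs_mul, abs_of_pos hκ0]
        exact add_le_add (mul_le_mul_of_nonneg_left htb hκ0.le) hH
    _ = _ := by
        rw [hκ]
        field_simp
        ring

theorem est2 {b : ℝ} (hb : 1 < b) {q : ℕ} (hq : 0 < q) (j : ℤ) (hj : j ≠ 0) (A : ℝ) :
    |∫ y, hh (A - Wf b q j y) ∂mu0| ≤
      (5 / 8 + q * (Real.log |(j : ℝ)| / Real.log b)) / |(j : ℝ)| := by
  have hlog := Real.log_pos hb
  have hpi := Real.pi_pos
  have hq' : (0 : ℝ) < q := by exact_mod_cast hq
  have hj1 : (1 : ℝ) ≤ |(j : ℝ)| := by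
    have : (1 : ℤ) ≤ |j| := Int.one_le_abs hj
    exact_mod_cast this
  have hj0 : (0 : ℝ) < |(j : ℝ)| := by linarith
  set r : ℝ := 1 / (2 * |(j : ℝ)|) with hr
  have hr0 : 0 < r := by positivity
  have hr1 : r ≤ 1 / 2 := by
    rw [hr]
    apply one_div_le_one_div_of_le <;> linarith
  set a : ℝ := 1 / 2 - r with ha
  have ha0 : 0 ≤ a := by linarith
  have ha1 : a < 1 / 2 := by linarith
  have h1 := est1 hb hq j A ha0 ha1
  have hcos : 1 / |(j : ℝ)| ≤ Real.cos (Real.pi * a) := by
    have e : Real.cos (Real.pi * a) = Real.sin (Real.pi * r) := by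
      rw [← Real.cos_pi_div_two_sub]
      congr 1
      rw [ha]
      ring
    rw [e]
    have h2 := Real.mul_le_sin (x := Real.pi * r) (by positivity) (by nlinarith)
    refine le_trans (le_of_eq ?_) h2
    rw [hr]
    field_simp
  have hlc : -Real.log (Real.cos (Real.pi * a)) ≤ Real.log |(j : ℝ)| := by
    have h2 := Real.log_le_log (by positivity) hcos
    rw [one_div, Real.log_inv] at h2
    linarith
  have h2 : |∫ y in (-a)..a, hh (A - Wf b q j y)| ≤
      (1 / 8 + q * (Real.log |(j : ℝ)| / Real.log b)) / |(j : ℝ)| := by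
    rw [le_div_iff₀ hj0, mul_comm]
    refine h1.trans ?_
    gcongr
  have h3 : ∀ x y : ℝ, x ≤ y → |∫ z in x..y, hh (A - Wf b q j z)| ≤ (y - x) / 2 := by
    intro x y hxy
    have := intervalIntegral.norm_integral_le_of_norm_le_const (a := x) (b := y) (C := 1 / 2)
      (f := fun z => hh (A - Wf b q j z)) (fun z _ => by rw [Real.norm_eq_abs]; exact hh_abs _)
    rw [Real.norm_eq_abs, abs_of_nonneg (show 0 ≤ y - x by linarith)] at this
    linarith
  have e1 : ∫ y, hh (A - Wf b q j y) ∂mu0 = ∫ y in (-1 / 2 : ℝ)..(1 / 2),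
      hh (A - Wf b q j y) := by
    rw [intervalIntegral.integral_of_le (by norm_num), integral_Ioc_eq_integral_Ioo, mu0]
  have e2 : ∫ y in (-1 / 2 : ℝ)..(1 / 2), hh (A - Wf b q j y) =
      (∫ y in (-1 / 2 : ℝ)..(-a), hh (A - Wf b q j y)) +
      (∫ y in (-a)..a, hh (A - Wf b q j y)) +
      ∫ y in a..(1 / 2), hh (A - Wf b q j y) := by
    rw [intervalIntegral.integral_add_adjacent_intervals (hhV_iint _ _ _ _ _ _)
      (hhV_iint _ _ _ _ _ _),
      intervalIntegral.integral_add_adjacent_intervals (hhV_iint _ _ _ _ _ _)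
      (hhV_iint _ _ _ _ _ _)]
  rw [e1, e2]
  have h4 := h3 (-1 / 2) (-a) (by linarith)
  have h5 := h3 a (1 / 2) (by linarith)
  have e3 : (5 / 8 + q * (Real.log |(j : ℝ)| / Real.log b)) / |(j : ℝ)| =
      (1 / 8 + q * (Real.log |(j : ℝ)| / Real.log b)) / |(j : ℝ)| + r := by
    rw [hr]
    field_simp
    ring
  rw [e3]
  calc _ ≤ |∫ y in (-1 / 2 : ℝ)..(-a), hh (A - Wf b q j y)| +
      |∫ y in (-a)..a, hh (A - Wf b q j y)| +
      |∫ y in a..(1 / 2), hh (A - Wf b q j y)| := by
        refine (abs_add_le _ _).trans ?_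
        gcongr
        exact abs_add_le _ _
    _ ≤ _ := by
        have : -a - -1 / 2 = r := by rw [ha]; ring
        have h6 : 1 / 2 - a = r := by rw [ha]; ring
        rw [this] at h4
        rw [h6] at h5
        linarith

end Pool.Agent.Helper84.BD
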