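import Pool.Agent.Helper84.BD.Est

/-!
# MP_1609c3_nt: existence of the limits for `n α + log_b |cos π n β|`
-/

set_option autoImplicit false

namespace Pool.Agent.Helper84.BD

open Filter Topology MeasureTheory
open scoped ENNReal

/-- the sequence `n α + log_b |cos π n β|` -/
noncomputable def us (b α β : ℝ) (n : ℕ) : ℝ := n * α + gr b (n * β)

/-- the resonance `q α = p + j β`, generating all resonances -/
structure Reson (α β : ℝ) (q : ℕ) (j p : ℤ) : Prop where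
  pos : 0 < q
  rel : (q : ℝ) * α = p + j * β
  gen : ∀ l j' p' : ℤ, (l : ℝ) * α + j' * β = p' → (q : ℤ) ∣ l

theorem dichotomy (α β : ℝ) :
    (∀ l : ℤ, l ≠ 0 → ∀ j p : ℤ, (l : ℝ) * α + j * β ≠ p) ∨ ∃ q j p, Reson α β q j p := by
  let H : AddSubgroup ℤ :=
    { carrier := {l | ∃ j p : ℤ, (l : ℝ) * α + j * β = p}
      add_mem' := by
        rintro a b ⟨j, p, h⟩ ⟨j', p', h'⟩
        exact ⟨j + j', p + p', by push_cast; linarith⟩
      zero_mem' := ⟨0, 0, by simp⟩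
      neg_mem' := by
        rintro a ⟨j, p, h⟩
        exact ⟨-j, -p, by push_cast; linarith⟩ }
  have hH : ∀ l : ℤ, l ∈ H ↔ ∃ j p : ℤ, (l : ℝ) * α + j * β = p := fun l => Iff.rfl
  obtain ⟨a, ha⟩ := Int.subgroup_cyclic H
  have hmem : ∀ l : ℤ, l ∈ H ↔ a ∣ l := by
    intro l
    rw [ha, ← AddSubgroup.zmultiples_eq_closure, Int.mem_zmultiples_iff]
  by_cases h0 : a = 0
  · left
    intro l hl j p hjp
    have h1 : l ∈ H := (hH l).2 ⟨j, p, hjp⟩
    rw [hmem, h0, zero_dvd_iff] at h1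
    exact hl h1
  · right
    have h1 : ((a.natAbs : ℕ) : ℤ) ∈ H := (hmem _).2 (Int.dvd_natAbs.2 dvd_rfl)
    obtain ⟨j, p, h⟩ := (hH _).1 h1
    refine ⟨a.natAbs, -j, p, Int.natAbs_pos.2 h0, ?_, ?_⟩
    · rw [Int.cast_natCast] at h
      push_cast
      linarith
    · intro l j' p' hl
      rw [Int.natAbs_dvd]
      exact (hmem l).1 ((hH l).2 ⟨j', p', hl⟩)

theorem lim_nonres {b α β : ℝ} (hβ : Irrational β)
    (h : ∀ l : ℤ, l ≠ 0 → ∀ j p : ℤ, (l : ℝ) * α + j * β ≠ p) {s t : ℝ} (hst : s ≤ t)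
    (hts : t ≤ s + 1) : Tendsto (freq (Hit (us b α β) s t)) atTop (𝓝 (t - s)) :=
  freq_nonres (gT_cont b) hβ h hst hts

/-- the limit in the resonant case -/
noncomputable def limR (b : ℝ) (q : ℕ) (j : ℤ) (s t : ℝ) : ℝ :=
  (1 / q) * ∫ y, ((⌈(q : ℝ) * t - Wf b q j y⌉ : ℝ) - ⌈(q : ℝ) * s - Wf b q j y⌉) ∂mu0

theorem lim_res {b α β : ℝ} (hb : 1 < b) (hβ : Irrational β) {q : ℕ} {j p : ℤ}
    (h : Reson α β q j p) {s t : ℝ} (hst : s ≤ t) (hts : t ≤ s + 1) :
    Tendsto (freq (Hit (us b α β) s t)) atTop (𝓝 (limR b q j s t)) := by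
  have hq' : (q : ℝ) ≠ 0 := by exact_mod_cast h.pos.ne'
  have h1 := freq_res (gT_cont b) hβ h.pos j p h.rel h.gen
    (Φ := fun y => Wf b q j y / q) (fun y _ => by
      rw [mul_div_cancel₀ _ hq', gT_coe, Wf])
    ((Wf_meas b q j).div_const _).aemeasurable
    (fun c => by
      have := level_countable hb h.pos j (c * q)
      refine this.mono ?_
      rintro y ⟨hy1, hy2⟩
      exact ⟨hy1, (div_eq_iff hq').1 hy2⟩) hst hts
  have e : ∀ (x y : ℝ), (q : ℝ) * (x - Wf b q j y / q) = q * x - Wf b q j y := by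
    intro x y
    field_simp
  simp only [e] at h1
  exact h1

lemma limR_eq (b : ℝ) {q : ℕ} (hq : 0 < q) (j : ℤ) (s t : ℝ) :
    limR b q j s t - (t - s) = (1 / q) * ((∫ y, hh (q * t - Wf b q j y) ∂mu0) -
      ∫ y, hh (q * s - Wf b q j y) ∂mu0) := by
  have hq' : (q : ℝ) ≠ 0 := by exact_mod_cast hq.ne'
  have i1 := hhV_int b q j (q * t) mu0
  have i2 := hhV_int b q j (q * s) mu0
  rw [limR, ← integral_sub i1 i2]
  have e : ∀ y, ((⌈(q : ℝ) * t - Wf b q j y⌉ : ℝ) - ⌈(q : ℝ) * s - Wf b q j y⌉) =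
      (hh (q * t - Wf b q j y) - hh (q * s - Wf b q j y)) + q * (t - s) := by
    intro y
    simp only [hh]
    ring
  simp only [e]
  have e2 : ∫ y, ((hh (q * t - Wf b q j y) - hh (q * s - Wf b q j y)) + q * (t - s)) ∂mu0 =
      (∫ y, (hh (q * t - Wf b q j y) - hh (q * s - Wf b q j y)) ∂mu0) +
        ∫ _, ((q : ℝ) * (t - s)) ∂mu0 :=
    integral_add (i1.sub i2) (integrable_const _)
  rw [e2, integral_const]
  simp only [probReal_univ, one_smul]
  field_simp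
  ring

theorem limR_le_inv (b : ℝ) {q : ℕ} (hq : 0 < q) (j : ℤ) (s t : ℝ) :
    |limR b q j s t - (t - s)| ≤ 1 / q := by
  have i1 := hhV_int b q j (q * t) mu0
  have i2 := hhV_int b q j (q * s) mu0
  rw [limR_eq b hq, abs_mul, abs_of_nonneg (show (0 : ℝ) ≤ 1 / q by positivity),
    ← integral_sub i1 i2]
  have h1 : ‖∫ y, (hh (q * t - Wf b q j y) - hh (q * s - Wf b q j y)) ∂mu0‖ ≤ 1 := by
    have := norm_integral_le_of_norm_le_const (μ := mu0)
      (f := fun y => (hh (q * t - Wf b q j y) - hh (q * s - Wf b q j y))) (C := 1)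
      (Eventually.of_forall fun y => by
        rw [Real.norm_eq_abs]
        refine (abs_sub _ _).trans ?_
        linarith [hh_abs (q * t - Wf b q j y), hh_abs (q * s - Wf b q j y)])
    simpa using this
  rw [Real.norm_eq_abs] at h1
  calc _ ≤ (1 / (q : ℝ)) * 1 := mul_le_mul_of_nonneg_left h1 (by positivity)
    _ = 1 / q := mul_one _

theorem limR_le_log {b : ℝ} (hb : 1 < b) {q : ℕ} (hq : 0 < q) (j : ℤ) (hj : j ≠ 0) (s t : ℝ) :
    |limR b q j s t - (t - s)| ≤ (5 / 4 + 2 * (Real.log |(j : ℝ)| / Real.log b)) / |(j : ℝ)| := by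
  have hlog := Real.log_pos hb
  have hq1 : (1 : ℝ) ≤ q := by exact_mod_cast hq
  have hj1 : (1 : ℝ) ≤ |(j : ℝ)| := by
    have : (1 : ℤ) ≤ |j| := Int.one_le_abs hj
    exact_mod_cast this
  have hlj : 0 ≤ Real.log |(j : ℝ)| := Real.log_nonneg hj1
  have h1 := est2 hb hq j hj (q * t)
  have h2 := est2 hb hq j hj (q * s)
  rw [limR_eq b hq, abs_mul, abs_of_nonneg (show (0 : ℝ) ≤ 1 / q by positivity)]
  calc _ ≤ (1 / (q : ℝ)) * ((5 / 8 + q * (Real.log |(j : ℝ)| / Real.log b)) / |(j : ℝ)| +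
        (5 / 8 + q * (Real.log |(j : ℝ)| / Real.log b)) / |(j : ℝ)|) := by
        refine mul_le_mul_of_nonneg_left ?_ (by positivity)
        exact (abs_sub _ _).trans (add_le_add h1 h2)
    _ = (5 / 4 * (1 / q) + 2 * (Real.log |(j : ℝ)| / Real.log b)) / |(j : ℝ)| := by
        field_simp
        ring
    _ ≤ _ := by
        gcongr
        have : 1 / (q : ℝ) ≤ 1 := by
          rw [div_le_one (by linarith)]
          exact hq1
        linarith

/-- the limits exist in all cases -/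
theorem lim_exists {b α β : ℝ} (hb : 1 < b) (hβ : Irrational β) {s t : ℝ} (hst : s ≤ t)
    (hts : t ≤ s + 1) : ∃ L, Tendsto (freq (Hit (us b α β) s t)) atTop (𝓝 L) := by
  rcases dichotomy α β with h | ⟨q, j, p, h⟩
  · exact ⟨_, lim_nonres hβ h hst hts⟩
  · exact ⟨_, lim_res hb hβ h hst hts⟩

end Pool.Agent.Helper84.BD
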