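import Mathlib

/-!
# MP_1609c3_nt: Cesàro means along sequences in the circle
-/

set_option autoImplicit false

namespace Pool.Agent.Helper84.BD

open Filter Topology MeasureTheory Finset

/-- the circle `ℝ/ℤ` -/
abbrev T1 : Type := AddCircle (1 : ℝ)

instance : IsProbabilityMeasure (volume : Measure T1) :=
  ⟨by rw [AddCircle.measure_univ]; simp⟩

instance : NullSingletonClass (volume : Measure T1) :=
  ⟨fun y => by
    have := AddCircle.volume_closedBall (T := (1 : ℝ)) (x := y) 0
    rw [Metric.closedBall_zero] at this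
    rw [this]
    simp⟩

/-- Cesàro mean -/
noncomputable def mean (c : ℕ → ℂ) (N : ℕ) : ℂ := (∑ n ∈ range N, c n) / (N : ℂ)

lemma mean_add (c d : ℕ → ℂ) (N : ℕ) : mean (fun n => c n + d n) N = mean c N + mean d N := by
  simp [mean, Finset.sum_add_distrib, add_div]

lemma mean_sub (c d : ℕ → ℂ) (N : ℕ) : mean (fun n => c n - d n) N = mean c N - mean d N := by
  simp [mean, Finset.sum_sub_distrib, sub_div]

lemma mean_smul (z : ℂ) (c : ℕ → ℂ) (N : ℕ) : mean (fun n => z * c n) N = z * mean c N := by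
  simp only [mean, ← Finset.mul_sum, mul_div_assoc]

lemma norm_mean_le {c : ℕ → ℂ} {ε : ℝ} (hε : 0 ≤ ε) (h : ∀ n, ‖c n‖ ≤ ε) (N : ℕ) :
    ‖mean c N‖ ≤ ε := by
  rw [mean, norm_div, Complex.norm_natCast]
  refine div_le_of_le_mul₀ (by positivity) hε ?_
  calc ‖∑ n ∈ range N, c n‖ ≤ ∑ n ∈ range N, ‖c n‖ := norm_sum_le _ _
    _ ≤ ∑ n ∈ range N, ε := Finset.sum_le_sum fun n _ => h n
    _ = ε * N := by simp [mul_comm]

lemma mean_one : Tendsto (mean fun _ => (1 : ℂ)) atTop (𝓝 1) := by
  refine tendsto_const_nhds.congr' ?_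
  filter_upwards [eventually_gt_atTop 0] with N hN
  have : (N : ℂ) ≠ 0 := by exact_mod_cast hN.ne'
  simp [mean, this]

theorem mean_geom {u : ℂ} (hu : ‖u‖ = 1) (h1 : u ≠ 1) :
    Tendsto (mean fun n => u ^ n) atTop (𝓝 0) := by
  have h2 : 0 < ‖u - 1‖ := norm_pos_iff.2 (sub_ne_zero.2 h1)
  rw [tendsto_zero_iff_norm_tendsto_zero]
  refine squeeze_zero (fun _ => norm_nonneg _) (g := fun N : ℕ => (2 / ‖u - 1‖) / (N : ℝ)) ?_ ?_
  · intro N
    rw [mean, norm_div, Complex.norm_natCast]
    gcongr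
    rw [geom_sum_eq h1, norm_div]
    gcongr
    calc ‖u ^ N - 1‖ ≤ ‖u ^ N‖ + ‖(1 : ℂ)‖ := norm_sub_le _ _
      _ = 2 := by rw [norm_pow, hu]; norm_num
  · exact tendsto_const_div_atTop_nhds_zero_nat _

/-- means of continuous functions from means of characters -/
theorem mean_cont {x : ℕ → T1} {c : ℕ → ℂ} (hc : ∀ n, ‖c n‖ ≤ 1) {κ : ℂ} (hκ : ‖κ‖ ≤ 1)
    (ν : Measure T1) [IsProbabilityMeasure ν]
    (h : ∀ l : ℤ, Tendsto (mean fun n => c n * fourier l (x n)) atTop
      (𝓝 (κ * ∫ y, fourier l y ∂ν))) (F : C(T1, ℂ)) :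
    Tendsto (mean fun n => c n * F (x n)) atTop (𝓝 (κ * ∫ y, F y ∂ν)) := by
  have hint : ∀ G : C(T1, ℂ), Integrable (fun θ => G θ) ν := fun G =>
    G.continuous.integrable_of_hasCompactSupport (HasCompactSupport.of_compactSpace _)
  let W : Submodule ℂ C(T1, ℂ) :=
    { carrier := {G | Tendsto (mean fun n => c n * G (x n)) atTop (𝓝 (κ * ∫ y, G y ∂ν))}
      add_mem' := by
        intro G₁ G₂ h1 h2
        have h3 := Tendsto.add h1 h2
        have e : κ * ∫ θ, (G₁ + G₂) θ ∂ν = κ * ∫ θ, G₁ θ ∂ν + κ * ∫ θ, G₂ θ ∂ν := by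
          rw [← mul_add]
          congr 1
          exact integral_add (hint G₁) (hint G₂)
        show Tendsto _ _ (𝓝 (κ * ∫ θ, (G₁ + G₂) θ ∂ν))
        rw [e]
        refine h3.congr fun N => ?_
        rw [← mean_add]
        congr 1
        funext n
        simp only [ContinuousMap.add_apply]
        ring
      zero_mem' := by
        have e : (mean fun n => c n * (0 : C(T1, ℂ)) (x n)) = fun _ => 0 := by
          funext N
          simp [mean]
        show Tendsto (mean fun n => c n * (0 : C(T1, ℂ)) (x n)) _ _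
        rw [e]
        simp
      smul_mem' := by
        intro z G h1
        have h3 := Tendsto.const_mul z h1
        have e : κ * ∫ θ, (z • G) θ ∂ν = z * (κ * ∫ θ, G θ ∂ν) := by
          have : ∫ θ, (z • G) θ ∂ν = z * ∫ θ, G θ ∂ν := by
            rw [← integral_const_mul]
            rfl
          rw [this]
          ring
        show Tendsto _ _ (𝓝 (κ * ∫ θ, (z • G) θ ∂ν))
        rw [e]
        refine h3.congr fun N => ?_
        rw [← mean_smul]
        congr 1
        funext n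
        simp only [ContinuousMap.smul_apply, smul_eq_mul]
        ring }
  have hW1 : Submodule.span ℂ (Set.range (fourier (T := (1 : ℝ)))) ≤ W := by
    rw [Submodule.span_le]
    rintro _ ⟨l, rfl⟩
    exact h l
  have hW2 : F ∈ W.topologicalClosure := by
    have h1 : (Submodule.span ℂ (Set.range (fourier (T := (1 : ℝ))))).topologicalClosure ≤
        W.topologicalClosure := Submodule.topologicalClosure_mono hW1
    rw [span_fourier_closure_eq_top] at h1
    exact h1 trivial
  have hW3 : F ∈ closure (W : Set C(T1, ℂ)) := hW2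
  rw [Metric.mem_closure_iff] at hW3
  rw [Metric.tendsto_atTop]
  intro ε hε
  obtain ⟨G, hG, hd⟩ := hW3 (ε / 4) (by positivity)
  have hG2 : Tendsto (mean fun n => c n * G (x n)) atTop (𝓝 (κ * ∫ y, G y ∂ν)) := hG
  rw [Metric.tendsto_atTop] at hG2
  obtain ⟨N₀, hN₀⟩ := hG2 (ε / 4) (by positivity)
  refine ⟨N₀, fun N hN => ?_⟩
  have hp : ∀ θ : T1, ‖F θ - G θ‖ ≤ ε / 4 := by
    intro θ
    have h1 := ContinuousMap.dist_apply_le_dist (f := F) (g := G) θ
    rw [dist_eq_norm] at h1
    exact h1.trans hd.le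
  have h1 : ‖mean (fun n => c n * F (x n)) N - mean (fun n => c n * G (x n)) N‖ ≤ ε / 4 := by
    rw [← mean_sub]
    refine norm_mean_le (by positivity) (fun n => ?_) N
    rw [← mul_sub, norm_mul]
    calc ‖c n‖ * ‖F (x n) - G (x n)‖ ≤ 1 * (ε / 4) := by
          gcongr
          · exact hc n
          · exact hp _
      _ = ε / 4 := one_mul _
  have h2 : ‖κ * (∫ y, F y ∂ν) - κ * ∫ y, G y ∂ν‖ ≤ ε / 4 := by
    rw [← mul_sub, ← integral_sub (hint F) (hint G), norm_mul]
    have : ‖∫ y, (F y - G y) ∂ν‖ ≤ ε / 4 := by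
      have := norm_integral_le_of_norm_le_const (μ := ν) (f := fun y => F y - G y)
        (C := ε / 4) (Eventually.of_forall hp)
      simpa using this
    calc ‖κ‖ * ‖∫ y, (F y - G y) ∂ν‖ ≤ 1 * (ε / 4) := by gcongr
      _ = ε / 4 := one_mul _
  have h3 := hN₀ N hN
  rw [dist_eq_norm] at h3 ⊢
  have h4 : mean (fun n => c n * F (x n)) N - κ * ∫ y, F y ∂ν =
      (mean (fun n => c n * F (x n)) N - mean (fun n => c n * G (x n)) N) +
      (mean (fun n => c n * G (x n)) N - κ * ∫ y, G y ∂ν) -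
      (κ * (∫ y, F y ∂ν) - κ * ∫ y, G y ∂ν) := by ring
  rw [h4]
  calc _ ≤ ‖mean (fun n => c n * F (x n)) N - mean (fun n => c n * G (x n)) N‖ +
        ‖mean (fun n => c n * G (x n)) N - κ * ∫ y, G y ∂ν‖ +
        ‖κ * (∫ y, F y ∂ν) - κ * ∫ y, G y ∂ν‖ := by
          refine (norm_sub_le _ _).trans ?_
          gcongr
          exact norm_add_le _ _
    _ < ε := by linarith

/-- a cutoff function near a point -/
theorem exists_cutoff (y₀ : T1) {δ : ℝ} (hδ : 0 < δ) : ∃ χ : C(T1, ℝ),
    (∀ y, 0 ≤ χ y ∧ χ y ≤ 1) ∧ (∀ y, dist y y₀ ≤ δ → χ y = 0) ∧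
    ∫ y, (1 - χ y) ≤ 4 * δ := by
  refine ⟨⟨fun y => min 1 (max 0 ((dist y y₀ - δ) / δ)), by fun_prop⟩, ?_, ?_, ?_⟩
  · intro y
    exact ⟨le_min zero_le_one (le_max_left _ _), min_le_left _ _⟩
  · intro y hy
    have : (dist y y₀ - δ) / δ ≤ 0 := div_nonpos_of_nonpos_of_nonneg (by linarith) hδ.le
    simp [max_eq_left this]
  · have h1 : ∀ y : T1, 1 - min 1 (max 0 ((dist y y₀ - δ) / δ)) ≤
        (Metric.closedBall y₀ (2 * δ)).indicator (fun _ => (1 : ℝ)) y := by
      intro y
      by_cases hy : dist y y₀ ≤ 2 * δ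
      · rw [Set.indicator_of_mem (by simpa using hy)]
        have : 0 ≤ min 1 (max 0 ((dist y y₀ - δ) / δ)) := le_min zero_le_one (le_max_left _ _)
        linarith
      · rw [Set.indicator_of_notMem (by simpa using hy)]
        push Not at hy
        have : 1 ≤ (dist y y₀ - δ) / δ := by
          rw [le_div_iff₀ hδ]; linarith
        rw [min_eq_left (le_max_of_le_right this)]
        simp
    calc ∫ y : T1, (1 - min 1 (max 0 ((dist y y₀ - δ) / δ))) ≤
        ∫ y : T1, (Metric.closedBall y₀ (2 * δ)).indicator (fun _ => (1 : ℝ)) y := by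
          refine integral_mono_of_nonneg (Eventually.of_forall fun y => ?_) ?_
            (Eventually.of_forall h1)
          · show 0 ≤ 1 - min 1 (max 0 ((dist y y₀ - δ) / δ))
            linarith [min_le_left (1 : ℝ) (max 0 ((dist y y₀ - δ) / δ))]
          · exact (integrable_const _).indicator measurableSet_closedBall
      _ = (volume (Metric.closedBall y₀ (2 * δ))).toReal := by
          rw [integral_indicator measurableSet_closedBall]
          simp [Measure.real]
      _ ≤ 4 * δ := by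
          rw [AddCircle.volume_closedBall]
          rw [ENNReal.toReal_ofReal (by positivity)]
          calc min 1 (2 * (2 * δ)) ≤ 2 * (2 * δ) := min_le_right _ _
            _ = 4 * δ := by ring

/-- means of bounded functions with one discontinuity -/
theorem mean_disc {x : ℕ → T1} {c : ℕ → ℂ} (hc : ∀ n, ‖c n‖ ≤ 1) {κ : ℂ} (hκ : ‖κ‖ ≤ 1)
    (h : ∀ l : ℤ, Tendsto (mean fun n => c n * fourier l (x n)) atTop
      (𝓝 (κ * ∫ y : T1, fourier l y)))
    (h1 : ∀ l : ℤ, Tendsto (mean fun n => 1 * fourier l (x n)) atTop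
      (𝓝 (1 * ∫ y : T1, fourier l y)))
    (G : T1 → ℂ) (hG : ∀ y, ‖G y‖ ≤ 1) (y₀ : T1) (hGc : ContinuousOn G {y₀}ᶜ) :
    Tendsto (mean fun n => c n * G (x n)) atTop (𝓝 (κ * ∫ y : T1, G y)) := by
  have hGm : AEStronglyMeasurable G (volume : Measure T1) := by
    have h2 : AEStronglyMeasurable G ((volume : Measure T1).restrict {y₀}ᶜ) :=
      hGc.aestronglyMeasurable (measurableSet_singleton _).compl
    rwa [restrict_compl_singleton] at h2
  have hGi : Integrable G (volume : Measure T1) :=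
    Integrable.of_bound hGm 1 (Eventually.of_forall hG)
  rw [Metric.tendsto_atTop]
  intro ε hε
  obtain ⟨χ, hχ1, hχ2, hχ3⟩ := exists_cutoff y₀ (δ := ε / 32) (by positivity)
  -- the continuous function `G χ`
  have hcont : Continuous fun y => G y * (χ y : ℂ) := by
    rw [continuous_iff_continuousAt]
    intro y
    by_cases hy : y = y₀
    · subst hy
      have h2 : (fun z => G z * (χ z : ℂ)) =ᶠ[𝓝 y] fun _ => 0 := by
        filter_upwards [Metric.closedBall_mem_nhds y (show (0 : ℝ) < ε / 32 by positivity)]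
          with z hz
        rw [hχ2 z hz]
        simp
      exact continuousAt_const.congr h2.symm
    · have h2 : ContinuousAt G y := hGc.continuousAt (isOpen_compl_singleton.mem_nhds hy)
      exact h2.mul (Complex.continuous_ofReal.continuousAt.comp χ.continuous.continuousAt)
  have hA := mean_cont hc hκ volume h ⟨_, hcont⟩
  have hB := mean_cont (fun _ => (by simp : ‖(1 : ℂ)‖ ≤ 1)) (by simp : ‖(1 : ℂ)‖ ≤ 1) volume h1
    ⟨fun y => ((1 - χ y : ℝ) : ℂ), by fun_prop⟩
  simp only [ContinuousMap.coe_mk, one_mul] at hA hB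
  rw [Metric.tendsto_atTop] at hA hB
  obtain ⟨N₁, hN₁⟩ := hA (ε / 4) (by positivity)
  obtain ⟨N₂, hN₂⟩ := hB (ε / 8) (by positivity)
  refine ⟨max N₁ N₂, fun N hN => ?_⟩
  have hA2 := hN₁ N (le_trans (le_max_left _ _) hN)
  have hB2 := hN₂ N (le_trans (le_max_right _ _) hN)
  rw [dist_eq_norm] at hA2 hB2 ⊢
  have hI : ‖∫ y : T1, ((1 - χ y : ℝ) : ℂ)‖ ≤ ε / 8 := by
    rw [integral_complex_ofReal, Complex.norm_real, Real.norm_eq_abs, abs_of_nonneg]
    · linarith
    · exact integral_nonneg fun y => by have := (hχ1 y).2; simp; linarith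
  have hm : ‖mean (fun n => ((1 - χ (x n) : ℝ) : ℂ)) N‖ ≤ ε / 4 := by
    calc _ = ‖(mean (fun n => ((1 - χ (x n) : ℝ) : ℂ)) N - ∫ y : T1, ((1 - χ y : ℝ) : ℂ)) +
          ∫ y : T1, ((1 - χ y : ℝ) : ℂ)‖ := by rw [sub_add_cancel]
      _ ≤ _ := norm_add_le _ _
      _ ≤ ε / 8 + ε / 8 := add_le_add hB2.le hI
      _ = ε / 4 := by ring
  have hd : ‖mean (fun n => c n * G (x n)) N - mean (fun n => c n * (G (x n) * χ (x n))) N‖ ≤
      ε / 4 := by
    refine le_trans ?_ hm
    rw [← mean_sub]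
    simp only [mean, norm_div, Complex.norm_natCast]
    gcongr
    calc _ ≤ ∑ n ∈ range N, ‖c n * G (x n) - c n * (G (x n) * χ (x n))‖ := norm_sum_le _ _
      _ ≤ ∑ n ∈ range N, (1 - χ (x n)) := by
          refine Finset.sum_le_sum fun n _ => ?_
          have e : c n * G (x n) - c n * (G (x n) * χ (x n)) =
            c n * G (x n) * ((1 - χ (x n) : ℝ) : ℂ) := by push_cast; ring
          rw [e, norm_mul, norm_mul, Complex.norm_real, Real.norm_eq_abs,
            abs_of_nonneg (by linarith [(hχ1 (x n)).2])]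
          have h3 : 0 ≤ 1 - χ (x n) := by linarith [(hχ1 (x n)).2]
          have h4 : ‖c n‖ * ‖G (x n)‖ ≤ 1 := mul_le_one₀ (hc n) (norm_nonneg _) (hG _)
          nlinarith
      _ = ‖∑ n ∈ range N, ((1 - χ (x n) : ℝ) : ℂ)‖ := by
          rw [← Complex.ofReal_sum, Complex.norm_real, Real.norm_eq_abs, abs_of_nonneg]
          exact Finset.sum_nonneg fun n _ => by linarith [(hχ1 (x n)).2]
  have hi : ‖κ * (∫ y : T1, G y) - κ * ∫ y : T1, G y * (χ y : ℂ)‖ ≤ ε / 8 := by
    have hint2 : Integrable (fun y : T1 => G y * (χ y : ℂ)) volume :=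
      hcont.integrable_of_hasCompactSupport (HasCompactSupport.of_compactSpace _)
    rw [← mul_sub, ← integral_sub hGi hint2, norm_mul]
    have h5 : ‖∫ y : T1, (G y - G y * (χ y : ℂ))‖ ≤ ∫ y : T1, (1 - χ y) := by
      refine norm_integral_le_of_norm_le ?_ (Eventually.of_forall fun y => ?_)
      · exact (continuous_const.sub χ.continuous).integrable_of_hasCompactSupport
          (HasCompactSupport.of_compactSpace _)
      · have e : G y - G y * (χ y : ℂ) = G y * ((1 - χ y : ℝ) : ℂ) := by push_cast; ring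
        rw [e, norm_mul, Complex.norm_real, Real.norm_eq_abs,
          abs_of_nonneg (by linarith [(hχ1 y).2])]
        have h3 : 0 ≤ 1 - χ y := by linarith [(hχ1 y).2]
        have := hG y
        nlinarith
    calc ‖κ‖ * ‖∫ y : T1, (G y - G y * (χ y : ℂ))‖ ≤ 1 * (ε / 8) := by
          gcongr
          linarith
      _ = ε / 8 := one_mul _
  have e : mean (fun n => c n * G (x n)) N - κ * ∫ y : T1, G y =
      (mean (fun n => c n * G (x n)) N - mean (fun n => c n * (G (x n) * χ (x n))) N) +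
      (mean (fun n => c n * (G (x n) * χ (x n))) N - κ * ∫ y : T1, G y * (χ y : ℂ)) -
      (κ * (∫ y : T1, G y) - κ * ∫ y : T1, G y * (χ y : ℂ)) := by ring
  rw [e]
  calc _ ≤ ‖mean (fun n => c n * G (x n)) N - mean (fun n => c n * (G (x n) * χ (x n))) N‖ +
      ‖mean (fun n => c n * (G (x n) * χ (x n))) N - κ * ∫ y : T1, G y * (χ y : ℂ)‖ +
      ‖κ * (∫ y : T1, G y) - κ * ∫ y : T1, G y * (χ y : ℂ)‖ := by
        refine (norm_sub_le _ _).trans ?_
        gcongr
        exact norm_add_le _ _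
    _ < ε := by linarith

end Pool.Agent.Helper84.BD
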