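import Pool.Agent.Helper84.BD.Cert
import Pool.Agent.Helper84.BD.Digits

/-!
# MP_1609c3_nt: base ten, up to `10^(-1000)`
-/

set_option autoImplicit false

namespace Pool.Agent.Helper84.BD

open Filter Topology MeasureTheory

lemma al_ten : al 10 = Real.logb 10 3 / 2 := by
  rw [al, Real.logb]
  push_cast
  have : Real.log 10 ≠ 0 := (Real.log_pos (by norm_num)).ne'
  field_simp

/-- there is no small resonance in base ten -/
theorem no_res (q : ℕ) (j p : ℤ) (hq0 : 0 < q) (hq : q ≤ 10 ^ 1000)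
    (hj : |j| ≤ ((10 ^ 1004 : ℕ) : ℤ)) : (q : ℝ) * al 10 ≠ p + j * be := by
  intro h
  obtain ⟨hA1, hA2⟩ := al_bounds (2 ^ 10440) 10040 cA (by positivity) runA_cert
  obtain ⟨hm1, hm2⟩ := be_bounds (2 ^ 10440) 10040 cM (by positivity) runB_cert
  have e : (2 : ℝ) ^ (10040 + 1) * al 10 = 2 ^ 10040 * Real.logb 10 3 := by
    rw [al_ten, pow_succ]
    ring
  rw [← e] at hA1 hA2
  have hq' : |(q : ℤ)| ≤ ((10 ^ 1000 : ℕ) : ℤ) := by
    rw [Nat.abs_cast]
    exact_mod_cast hq
  have h' : ((q : ℤ) : ℝ) * al 10 = p + j * be := by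
    rw [Int.cast_natCast]
    exact h
  have h1 := no_small hA1 hA2 hm1 hm2 v_cert1 hq' hj h'
  have h2 := no_small hA1 hA2 hm1 hm2 v_cert2 hq' hj h'
  have h3 := no_small hA1 hA2 hm1 hm2 v_cert3 hq' hj h'
  have h4 : (q : ℤ) * (va1 * (vb2 * vc3 - vb3 * vc2) - vb1 * (va2 * vc3 - va3 * vc2) +
      vc1 * (va2 * vb3 - va3 * vb2)) = 0 := by
    linear_combination (-(va2 * vc3 - va3 * vc2)) * h1 + (va1 * vc3 - va3 * vc1) * h2 -
      (va1 * vc2 - va2 * vc1) * h3
  rcases mul_eq_zero.1 h4 with h5 | h5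
  · have : q = 0 := by exact_mod_cast h5
    omega
  · exact det_cert h5

lemma big_aux {X Y x : ℝ} (hX0 : 1 ≤ X) (e : Y = 10000 * X)
    (hlog : Real.log Y = 1004 * Real.log 10) (hx : Y ≤ x) :
    (5 / 4 + 2 * (Real.log x / Real.log 10)) / x < 1 / X := by
  have h10 : (0 : ℝ) < Real.log 10 := Real.log_pos (by norm_num)
  have he : Real.exp 1 ≤ 10000 := by
    have := Real.exp_one_lt_d9
    linarith
  have hY1 : 10000 ≤ Y := by linarith
  have hY0 : 0 < Y := by linarith
  have hx0 : 0 < x := by linarith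
  have h1 : Real.log x / x ≤ Real.log Y / Y := by
    apply Real.log_div_self_antitoneOn _ _ hx
    · show Real.exp 1 ≤ Y
      linarith
    · show Real.exp 1 ≤ x
      linarith
  rw [hlog] at h1
  have h2 : (5 / 4 + 2 * (Real.log x / Real.log 10)) / x =
      5 / 4 / x + 2 / Real.log 10 * (Real.log x / x) := by
    field_simp
  rw [h2]
  have h3 : 5 / 4 / x ≤ 5 / 4 / Y := by
    gcongr
  have h4 : 2 / Real.log 10 * (Real.log x / x) ≤ 2008 / Y := by
    calc 2 / Real.log 10 * (Real.log x / x) ≤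
        2 / Real.log 10 * (1004 * Real.log 10 / Y) := by gcongr
      _ = 2008 / Y := by
        field_simp
        norm_num
  have h5 : 5 / 4 / Y + 2008 / Y < 1 / X := by
    rw [← add_div, div_lt_div_iff₀ hY0 (by linarith), e]
    linarith
  linarith

lemma big_bound {x : ℝ} (hx : (10 : ℝ) ^ 1004 ≤ x) :
    (5 / 4 + 2 * (Real.log x / Real.log 10)) / x < 1 / 10 ^ 1000 := by
  refine big_aux (one_le_pow₀ (by norm_num)) ?_ ?_ hx
  · rw [show (1004 : ℕ) = 4 + 1000 from rfl, pow_add]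
    congr 1
    norm_num
  · rw [Real.log_pow]
    push_cast
    rfl

theorem near {s t : ℝ} (hst : s ≤ t) (hts : t ≤ s + 1) :
    ∃ L, Tendsto (freq (Hit (us (10 : ℕ) (al 10) be) s t)) atTop (𝓝 L) ∧
      |L - (t - s)| < 1 / 10 ^ 1000 := by
  have hX0 : (0 : ℝ) < 1 / 10 ^ 1000 := by positivity
  have hb1 : (1 : ℝ) < ((10 : ℕ) : ℝ) := by norm_num
  rcases dichotomy (al 10) be with h | ⟨q, j, p, h⟩
  · refine ⟨_, lim_nonres be_irrational h hst hts, ?_⟩
    simpa using hX0
  · refine ⟨_, lim_res hb1 be_irrational h hst hts, ?_⟩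
    by_cases hq : q ≤ 10 ^ 1000
    · have hj : ((10 ^ 1004 : ℕ) : ℤ) < |j| := by
        by_contra hcon
        push Not at hcon
        exact no_res q j p h.pos hq hcon h.rel
      have hj0 : j ≠ 0 := by
        intro h0
        rw [h0, abs_zero] at hj
        have : (0 : ℤ) ≤ ((10 ^ 1004 : ℕ) : ℤ) := Int.natCast_nonneg _
        omega
      have hj' : (10 : ℝ) ^ 1004 ≤ |(j : ℝ)| := by
        have : (((10 ^ 1004 : ℕ) : ℤ) : ℝ) < ((|j| : ℤ) : ℝ) := Int.cast_lt.2 hj
        push_cast at this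
        exact this.le
      refine lt_of_le_of_lt (limR_le_log hb1 h.pos j hj0 s t) ?_
      have := big_bound hj'
      push_cast
      exact this
    · push Not at hq
      refine lt_of_le_of_lt (limR_le_inv _ h.pos j s t) ?_
      have hq' : (10 : ℝ) ^ 1000 < q := by exact_mod_cast hq
      exact one_div_lt_one_div_of_lt (by positivity) hq'

/-- **Theorem A.** In base ten all frequencies of blocks of significands exist, and they differ
from the values of Benford's law by less than `10^(-1000)`. -/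
theorem near_block {x y : ℝ} (hx : 1 ≤ x) (hxy : x ≤ y) (hy : y ≤ 10) :
    ∃ L, HasFreq (Block 10 x y) L ∧ |L - Real.logb 10 (y / x)| < 1 / 10 ^ 1000 := by
  have hy' : y ≤ ((10 : ℕ) : ℝ) := by push_cast; exact hy
  obtain ⟨h1, h2⟩ := logb_range (b := 10) (by norm_num) hx hxy hy'
  obtain ⟨L, hL1, hL2⟩ := near h1 h2
  refine ⟨L, ?_, ?_⟩
  · rw [hasFreq_iff, freq_congr fun n => block_hit (b := 10) (by norm_num) hx hxy hy' n]
    exact hL1
  · have := logb_sub (b := 10) hx hxy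
    rw [this] at hL2
    push_cast at hL2
    exact hL2

theorem near_digit {d : ℕ} (hd1 : 1 ≤ d) (hd : d ≤ 9) :
    ∃ L, HasFreq (fun n => lead 10 (a n).natAbs = d) L ∧
      |L - Real.logb 10 (1 + 1 / d)| < 1 / 10 ^ 1000 := by
  have hd1' : (1 : ℝ) ≤ d := by exact_mod_cast hd1
  have hd' : (d : ℝ) + 1 ≤ 10 := by exact_mod_cast (by omega : d + 1 ≤ 10)
  obtain ⟨L, hL1, hL2⟩ := near_block hd1' (by linarith : (d : ℝ) ≤ d + 1) hd'
  have e : ((d : ℝ) + 1) / d = 1 + 1 / d := by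
    field_simp
  rw [e] at hL2
  refine ⟨L, ?_, hL2⟩
  rw [hasFreq_iff] at hL1 ⊢
  rw [freq_congr fun n => digit_block (b := 10) (by norm_num) hd1 (by omega) n]
  exact hL1

end Pool.Agent.Helper84.BD
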