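import Pool.Agent.Helper84.BD.Seq

/-!
# MP_1609c3_nt: verified computation of the binary digits of `log_10 3` and of `arctan √2 / π`
-/

set_option autoImplicit false

namespace Pool.Agent.Helper84.BD

/-- binary digits of `f` from an enclosure `[wl, wu] / S` of `cos² (π f)` and the sign of
`cos (π f)` -/
def runB (S : ℕ) : ℕ → ℕ → ℕ → Bool → ℕ → Bool → Option ℕ
  | 0, _, _, _, m, _ => some m
  | K + 1, wl, wu, s, m, σ =>
    if S ≤ 2 * wl then
      runB S K ((2 * wl - S) ^ 2 / S) ((2 * wu - S) ^ 2 / S + 1) true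
        (2 * m + (if σ == s then 0 else 1)) (σ == s)
    else if 2 * wu ≤ S then
      runB S K ((S - 2 * wu) ^ 2 / S) ((S - 2 * wl) ^ 2 / S + 1) false
        (2 * m + (if σ == s then 0 else 1)) (σ == s)
    else none

/-- the value represented by the state `(m, σ, f)` -/
noncomputable def valB (m : ℕ) (σ : Bool) (f : ℝ) : ℝ := if σ then m + f else m + 1 - f

lemma div_lower (x S : ℕ) : ((x / S : ℕ) : ℝ) ≤ x / S := Nat.cast_div_le

lemma div_upper (x S : ℕ) (hS : 0 < S) : (x : ℝ) / S ≤ ((x / S + 1 : ℕ) : ℝ) := by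
  have hS' : (0 : ℝ) < S := by exact_mod_cast hS
  rw [div_le_iff₀ hS']
  have h := Nat.lt_mul_of_div_lt (Nat.lt_succ_self (x / S)) hS
  have h2 : (x : ℝ) < ((x / S).succ * S : ℕ) := by exact_mod_cast h
  push_cast at h2 ⊢
  linarith

theorem runB_spec (S : ℕ) (hS : 0 < S) : ∀ (K wl wu : ℕ) (s : Bool) (m : ℕ) (σ : Bool) (r : ℕ)
    (f : ℝ), 0 ≤ f → f ≤ 1 → (wl : ℝ) ≤ S * Real.cos (Real.pi * f) ^ 2 →
    S * Real.cos (Real.pi * f) ^ 2 ≤ wu → (s = true → f ≤ 1 / 2) → (s = false → 1 / 2 ≤ f) →
    runB S K wl wu s m σ = some r →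
    (r : ℝ) ≤ 2 ^ K * valB m σ f ∧ 2 ^ K * valB m σ f ≤ r + 1 := by
  have hS' : (0 : ℝ) < S := by exact_mod_cast hS
  have hpi := Real.pi_pos
  intro K
  induction K with
  | zero =>
    intro wl wu s m σ r f hf0 hf1 _ _ _ _ hr
    simp only [runB, Option.some.injEq] at hr
    subst hr
    cases σ <;> simp only [valB, Bool.false_eq_true, if_false, if_true, pow_zero, one_mul] <;>
      constructor <;> linarith
  | succ K ih =>
    intro wl wu s m σ r f hf0 hf1 hwl hwu hs1 hs2 hr
    rw [runB] at hr
    -- the next phase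
    set f' : ℝ := if s then 2 * f else 2 - 2 * f with hf'
    have hf'0 : 0 ≤ f' := by
      rw [hf']
      cases s
      · simp only [Bool.false_eq_true, if_false]
        linarith
      · simp only [if_true]
        linarith
    have hf'1 : f' ≤ 1 := by
      rw [hf']
      cases s
      · simp only [Bool.false_eq_true, if_false]
        linarith [hs2 rfl]
      · simp only [if_true]
        linarith [hs1 rfl]
    have hcos : Real.cos (Real.pi * f') = 2 * Real.cos (Real.pi * f) ^ 2 - 1 := by
      rw [hf']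
      cases s
      · simp only [Bool.false_eq_true, if_false]
        have : Real.pi * (2 - 2 * f) = 2 * Real.pi - 2 * (Real.pi * f) := by ring
        rw [this, Real.cos_two_pi_sub, Real.cos_two_mul]
      · simp only [if_true]
        have : Real.pi * (2 * f) = 2 * (Real.pi * f) := by ring
        rw [this, Real.cos_two_mul]
    have hval : valB (2 * m + (if σ == s then 0 else 1)) (σ == s) f' = 2 * valB m σ f := by
      rw [hf']
      cases σ <;> cases s <;> simp [valB] <;> ring
    generalize (2 * m + (if σ == s then 0 else 1)) = m' at hr hval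
    generalize (σ == s) = σ' at hr hval
    set w : ℝ := Real.cos (Real.pi * f) ^ 2 with hw
    have hw1 : w ≤ 1 := by
      rw [hw]
      exact Real.cos_sq_le_one _
    have hw0 : 0 ≤ w := sq_nonneg _
    have e2 : (2 : ℝ) ^ (K + 1) * valB m σ f = 2 ^ K * (2 * valB m σ f) := by ring
    split_ifs at hr with h1 h2
    · -- the cosine is nonnegative
      have h1' : (S : ℝ) ≤ 2 * wl := by exact_mod_cast h1
      have hw2 : 0 ≤ 2 * w - 1 := by
        have : (S : ℝ) * 1 ≤ S * (2 * w) := by linarith
        have := le_of_mul_le_mul_left this hS'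
        linarith
      have hwlu : wl ≤ wu := by exact_mod_cast hwl.trans hwu
      rw [e2, ← hval]
      refine ih _ _ true _ _ r f' hf'0 hf'1 ?_ ?_ ?_ (by simp) hr
      · rw [hcos]
        refine (div_lower _ _).trans ?_
        rw [div_le_iff₀ hS']
        push_cast [Nat.cast_sub h1]
        have : (2 * (wl : ℝ) - S) ≤ S * (2 * w - 1) := by linarith
        have h3 : 0 ≤ 2 * (wl : ℝ) - S := by linarith
        calc (2 * (wl : ℝ) - S) ^ 2 ≤ (S * (2 * w - 1)) ^ 2 := by gcongr
          _ = S * (2 * w - 1) ^ 2 * S := by ring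
      · rw [hcos]
        refine le_trans ?_ (div_upper _ _ hS)
        rw [le_div_iff₀ hS']
        have h4 : S ≤ 2 * wu := by omega
        push_cast [Nat.cast_sub h4]
        have : S * (2 * w - 1) ≤ (2 * (wu : ℝ) - S) := by linarith
        calc S * (2 * w - 1) ^ 2 * S = (S * (2 * w - 1)) ^ 2 := by ring
          _ ≤ (2 * (wu : ℝ) - S) ^ 2 := by
            have h5 : 0 ≤ S * (2 * w - 1) := by positivity
            gcongr
      · intro _
        by_contra hcon
        push Not at hcon
        have : Real.cos (Real.pi * f') < 0 := by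
          apply Real.cos_neg_of_pi_div_two_lt_of_lt
          · nlinarith
          · nlinarith
        rw [hcos] at this
        linarith
    · have h2' : 2 * (wu : ℝ) ≤ S := by exact_mod_cast h2
      have hw2 : 2 * w - 1 ≤ 0 := by
        have : (S : ℝ) * (2 * w) ≤ S * 1 := by linarith
        have := le_of_mul_le_mul_left this hS'
        linarith
      have hwlu : wl ≤ wu := by exact_mod_cast hwl.trans hwu
      rw [e2, ← hval]
      refine ih _ _ false _ _ r f' hf'0 hf'1 ?_ ?_ (by simp) ?_ hr
      · rw [hcos]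
        refine (div_lower _ _).trans ?_
        rw [div_le_iff₀ hS']
        push_cast [Nat.cast_sub h2]
        have : ((S : ℝ) - 2 * wu) ≤ S * (1 - 2 * w) := by linarith
        have h3 : 0 ≤ (S : ℝ) - 2 * wu := by linarith
        calc ((S : ℝ) - 2 * wu) ^ 2 ≤ (S * (1 - 2 * w)) ^ 2 := by gcongr
          _ = S * (2 * w - 1) ^ 2 * S := by ring
      · rw [hcos]
        refine le_trans ?_ (div_upper _ _ hS)
        rw [le_div_iff₀ hS']
        have h4 : 2 * wl ≤ S := by omega
        push_cast [Nat.cast_sub h4]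
        have : S * (1 - 2 * w) ≤ ((S : ℝ) - 2 * wl) := by linarith
        calc S * (2 * w - 1) ^ 2 * S = (S * (1 - 2 * w)) ^ 2 := by ring
          _ ≤ ((S : ℝ) - 2 * wl) ^ 2 := by
            have h5 : 0 ≤ S * (1 - 2 * w) := by
              have : 0 ≤ 1 - 2 * w := by linarith
              positivity
            gcongr
      · intro _
        by_contra hcon
        push Not at hcon
        have : 0 < Real.cos (Real.pi * f') := by
          apply Real.cos_pos_of_mem_Ioo
          constructor <;> nlinarith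
        rw [hcos] at this
        linarith

/-- binary digits of `log_10 x` from an enclosure `[l, u] / S` of `x` -/
def runA (S : ℕ) : ℕ → ℕ → ℕ → ℕ → Option ℕ
  | 0, _, _, m => some m
  | K + 1, l, u, m =>
    if 10 * S * S ≤ l * l then runA S K (l * l / (10 * S)) (u * u / (10 * S) + 1) (2 * m + 1)
    else if u * u < 10 * S * S then runA S K (l * l / S) (u * u / S + 1) (2 * m)
    else none

theorem runA_spec (S : ℕ) (hS : 0 < S) : ∀ (K l u m r : ℕ) (x : ℝ), 1 ≤ x → x ≤ 10 →
    (l : ℝ) ≤ S * x → S * x ≤ u → runA S K l u m = some r →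
    (r : ℝ) ≤ 2 ^ K * (m + Real.logb 10 x) ∧ 2 ^ K * (m + Real.logb 10 x) ≤ r + 1 := by
  have hS' : (0 : ℝ) < S := by exact_mod_cast hS
  have h10 : (1 : ℝ) < 10 := by norm_num
  intro K
  induction K with
  | zero =>
    intro l u m r x hx1 hx2 _ _ hr
    simp only [runA, Option.some.injEq] at hr
    subst hr
    have h1 : 0 ≤ Real.logb 10 x := Real.logb_nonneg h10 hx1
    have h2 : Real.logb 10 x ≤ 1 := by
      rw [← Real.logb_self_eq_one h10]
      exact (Real.logb_le_logb h10 (by linarith) (by norm_num)).2 hx2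
    rw [pow_zero, one_mul]
    constructor <;> linarith
  | succ K ih =>
    intro l u m r x hx1 hx2 hl hu hr
    rw [runA] at hr
    have hx0 : 0 < x := by linarith
    have hl2 : (l : ℝ) * l ≤ S * S * x ^ 2 := by
      calc (l : ℝ) * l ≤ (S * x) * (S * x) := by gcongr
        _ = _ := by ring
    have hu2 : S * S * x ^ 2 ≤ (u : ℝ) * u := by
      calc S * S * x ^ 2 = (S * x) * (S * x) := by ring
        _ ≤ (u : ℝ) * u := by gcongr
    split_ifs at hr with h1 h2
    · have h1' : (10 : ℝ) * S * S ≤ l * l := by exact_mod_cast h1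
      have hx3 : 10 ≤ x ^ 2 := by
        have : (S : ℝ) * S * 10 ≤ S * S * x ^ 2 := by linarith
        exact le_of_mul_le_mul_left this (by positivity)
      have hlog : Real.logb 10 (x ^ 2 / 10) = 2 * Real.logb 10 x - 1 := by
        rw [Real.logb_div (by positivity) (by norm_num), Real.logb_pow,
          Real.logb_self_eq_one h10]
        push_cast
        ring
      have := ih (l * l / (10 * S)) (u * u / (10 * S) + 1) (2 * m + 1) r (x ^ 2 / 10)
        (by rw [le_div_iff₀ (by norm_num)]; linarith)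
        (by rw [div_le_iff₀ (by norm_num)]; nlinarith)
        (by
          refine (div_lower _ _).trans ?_
          push_cast
          rw [div_le_iff₀ (by positivity)]
          calc (l : ℝ) * l ≤ S * S * x ^ 2 := hl2
            _ = _ := by ring)
        (by
          refine le_trans ?_ (div_upper _ _ (by positivity))
          push_cast
          rw [le_div_iff₀ (by positivity)]
          calc _ = S * S * x ^ 2 := by ring
            _ ≤ (u : ℝ) * u := hu2) hr
      rw [hlog] at this
      have e : (2 : ℝ) ^ (K + 1) * (m + Real.logb 10 x) =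
          2 ^ K * (((2 * m + 1 : ℕ) : ℝ) + (2 * Real.logb 10 x - 1)) := by
        push_cast
        ring
      rw [e]
      exact this
    · have h2' : (u : ℝ) * u < 10 * S * S := by exact_mod_cast h2
      have hx3 : x ^ 2 ≤ 10 := by
        have : (S : ℝ) * S * x ^ 2 ≤ S * S * 10 := by linarith
        exact le_of_mul_le_mul_left this (by positivity)
      have hlog : Real.logb 10 (x ^ 2) = 2 * Real.logb 10 x := by
        rw [Real.logb_pow]
        push_cast
        ring
      have := ih (l * l / S) (u * u / S + 1) (2 * m) r (x ^ 2)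
        (by nlinarith) hx3
        (by
          refine (div_lower _ _).trans ?_
          push_cast
          rw [div_le_iff₀ (by positivity)]
          calc (l : ℝ) * l ≤ S * S * x ^ 2 := hl2
            _ = _ := by ring)
        (by
          refine le_trans ?_ (div_upper _ _ hS)
          push_cast
          rw [le_div_iff₀ (by positivity)]
          calc _ = S * S * x ^ 2 := by ring
            _ ≤ (u : ℝ) * u := hu2) hr
      rw [hlog] at this
      have e : (2 : ℝ) ^ (K + 1) * (m + Real.logb 10 x) =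
          2 ^ K * (((2 * m : ℕ) : ℝ) + 2 * Real.logb 10 x) := by
        push_cast
        ring
      rw [e]
      exact this

/-- enclosure of `β = arctan √2 / π` -/
theorem be_bounds (S K r : ℕ) (hS : 0 < S)
    (h : runB S K (S / 3) (S / 3 + 1) true 0 true = some r) :
    (r : ℝ) ≤ 2 ^ K * be ∧ 2 ^ K * be ≤ r + 1 := by
  have hpi := Real.pi_pos
  have h0 : 0 ≤ be := by
    rw [be, th]
    exact div_nonneg (Real.arctan_nonneg.2 (Real.sqrt_nonneg _)) hpi.le
  have h1 : be ≤ 1 / 2 := by
    rw [be, th, div_le_iff₀ hpi]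
    have := (Real.arctan_lt_pi_div_two (Real.sqrt 2)).le
    linarith
  have h2 : Real.cos (Real.pi * be) ^ 2 = 1 / 3 := by
    have e : Real.pi * be = th := by
      rw [be]; field_simp
    rw [e, th, Real.cos_arctan, Real.sq_sqrt (by norm_num)]
    rw [div_pow, one_pow, Real.sq_sqrt (by norm_num)]
    norm_num
  have h3 := runB_spec S hS K (S / 3) (S / 3 + 1) true 0 true r be h0 (by linarith)
    (by
      rw [h2]
      have := div_lower S 3
      push_cast at this
      linarith)
    (by
      rw [h2]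
      have := div_upper S 3 (by norm_num)
      push_cast at this ⊢
      linarith) (fun _ => h1) (by simp) h
  simpa [valB] using h3

/-- enclosure of `log_10 3` -/
theorem al_bounds (S K r : ℕ) (hS : 0 < S)
    (h : runA S K (3 * S) (3 * S) 0 = some r) :
    (r : ℝ) ≤ 2 ^ K * Real.logb 10 3 ∧ 2 ^ K * Real.logb 10 3 ≤ r + 1 := by
  have h3 := runA_spec S hS K (3 * S) (3 * S) 0 r 3 (by norm_num) (by norm_num)
    (by push_cast; linarith) (by push_cast; linarith) h
  simpa using h3

/-- three small integer vectors exclude all small resonances -/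
theorem no_small {α β : ℝ} {A m : ℕ} {K Q1 Q2 : ℕ}
    (hA1 : (A : ℝ) ≤ 2 ^ (K + 1) * α) (hA2 : 2 ^ (K + 1) * α ≤ A + 1)
    (hm1 : (m : ℝ) ≤ 2 ^ K * β) (hm2 : 2 ^ K * β ≤ m + 1)
    {a b c : ℤ} (hv : (|2 ^ (K + 1) * b - A * a| + |a|) * Q1 + 2 * (|2 ^ K * c - m * a| + |a|) * Q2 <
      (2 ^ (K + 1) : ℤ)) {q j p : ℤ} (hq : |q| ≤ Q1) (hj : |j| ≤ Q2)
    (h : (q : ℝ) * α = p + j * β) : q * b - j * c - p * a = 0 := by
  have hP : (0 : ℝ) < 2 ^ (K + 1) := by positivity
  have hP2 : (2 : ℝ) ^ (K + 1) = 2 * 2 ^ K := by ring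
  have e1 : |(2 : ℝ) ^ (K + 1) * (b - α * a)| ≤ |(2 : ℝ) ^ (K + 1) * b - A * a| + |(a : ℝ)| := by
    have : (2 : ℝ) ^ (K + 1) * (b - α * a) = (2 ^ (K + 1) * b - A * a) -
        (2 ^ (K + 1) * α - A) * a := by ring
    rw [this]
    refine (abs_sub _ _).trans ?_
    refine add_le_add le_rfl ?_
    rw [abs_mul]
    have h1 : |2 ^ (K + 1) * α - (A : ℝ)| ≤ 1 := by
      rw [abs_le]; constructor <;> linarith
    calc _ ≤ 1 * |(a : ℝ)| := by gcongr
      _ = _ := one_mul _
  have e2 : |(2 : ℝ) ^ K * (c - β * a)| ≤ |(2 : ℝ) ^ K * c - m * a| + |(a : ℝ)| := by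
    have : (2 : ℝ) ^ K * (c - β * a) = (2 ^ K * c - m * a) -
        (2 ^ K * β - m) * a := by ring
    rw [this]
    refine (abs_sub _ _).trans ?_
    refine add_le_add le_rfl ?_
    rw [abs_mul]
    have h1 : |2 ^ K * β - (m : ℝ)| ≤ 1 := by
      rw [abs_le]; constructor <;> linarith
    calc _ ≤ 1 * |(a : ℝ)| := by gcongr
      _ = _ := one_mul _
  have hq' : |(q : ℝ)| ≤ Q1 := by exact_mod_cast hq
  have hj' : |(j : ℝ)| ≤ Q2 := by exact_mod_cast hj
  have key : ((q * b - j * c - p * a : ℤ) : ℝ) = q * (b - α * a) - j * (c - β * a) := by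
    push_cast
    linear_combination (a : ℝ) * h
  have hlt : |((q * b - j * c - p * a : ℤ) : ℝ)| < 1 := by
    rw [key]
    have h1 : (2 : ℝ) ^ (K + 1) * |(q : ℝ) * (b - α * a) - j * (c - β * a)| ≤
        (|(2 : ℝ) ^ (K + 1) * b - A * a| + |(a : ℝ)|) * Q1 +
          2 * (|(2 : ℝ) ^ K * c - m * a| + |(a : ℝ)|) * Q2 := by
      calc (2 : ℝ) ^ (K + 1) * |(q : ℝ) * (b - α * a) - j * (c - β * a)| =
          |q * (2 ^ (K + 1) * (b - α * a)) - j * (2 * (2 ^ K * (c - β * a)))| := by
            rw [← abs_of_pos hP, ← abs_mul, abs_of_pos hP]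
            congr 1
            rw [hP2]
            ring
        _ ≤ |(q : ℝ) * (2 ^ (K + 1) * (b - α * a))| + |(j : ℝ) * (2 * (2 ^ K * (c - β * a)))| :=
            abs_sub _ _
        _ = |(q : ℝ)| * |(2 : ℝ) ^ (K + 1) * (b - α * a)| +
            |(j : ℝ)| * (2 * |(2 : ℝ) ^ K * (c - β * a)|) := by
            rw [abs_mul (q : ℝ), abs_mul (j : ℝ), abs_mul (2 : ℝ), abs_of_pos (two_pos : (0 : ℝ) < 2)]
        _ ≤ Q1 * (|(2 : ℝ) ^ (K + 1) * b - A * a| + |(a : ℝ)|) +
            Q2 * (2 * (|(2 : ℝ) ^ K * c - m * a| + |(a : ℝ)|)) := by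
            gcongr
        _ = _ := by ring
    have h2 : (|(2 : ℝ) ^ (K + 1) * b - A * a| + |(a : ℝ)|) * Q1 +
          2 * (|(2 : ℝ) ^ K * c - m * a| + |(a : ℝ)|) * Q2 < 2 ^ (K + 1) := by
      exact_mod_cast hv
    have h3 := lt_of_le_of_lt h1 h2
    have h4 : (2 : ℝ) ^ (K + 1) * |(q : ℝ) * (b - α * a) - j * (c - β * a)| < 2 ^ (K + 1) * 1 := by
      linarith
    exact lt_of_mul_lt_mul_left h4 hP.le
  have h5 : |q * b - j * c - p * a| < 1 := by exact_mod_cast hlt
  exact Int.abs_lt_one_iff.1 h5

end Pool.Agent.Helper84.BD
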