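import Pool.Agent.Helper84.BD.Means

/-!
# MP_1609c3_nt: frequencies from Weyl sums (portmanteau theorem for empirical measures)
-/

set_option autoImplicit false

namespace Pool.Agent.Helper84.BD

open Filter Topology MeasureTheory Finset
open scoped ENNReal

/-- the frequency of `p` among the integers below `N` -/
noncomputable def freq (p : ℕ → Prop) (N : ℕ) : ℝ := by
  classical exact (((range N).filter p).card : ℝ) / N

lemma freq_congr {p q : ℕ → Prop} (h : ∀ n, p n ↔ q n) : freq p = freq q := by
  have : p = q := by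
    funext n
    exact propext (h n)
  rw [this]

/-- empirical measure -/
noncomputable def emp (u : ℕ → T1) (N : ℕ) : Measure T1 :=
  ((N + 1 : ℕ) : ℝ≥0∞)⁻¹ • ∑ n ∈ range (N + 1), Measure.dirac (u n)

instance (u : ℕ → T1) (N : ℕ) : IsProbabilityMeasure (emp u N) :=
  ⟨by
    simp only [emp, Measure.smul_apply, Measure.finsetSum_apply, measure_univ, sum_const,
      card_range, smul_eq_mul, nsmul_eq_mul, mul_one]
    exact ENNReal.inv_mul_cancel (by simp) (ENNReal.natCast_ne_top _)⟩

/-- empirical measure as a probability measure -/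
noncomputable def empP (u : ℕ → T1) (N : ℕ) : ProbabilityMeasure T1 := ⟨emp u N, inferInstance⟩

lemma emp_apply (u : ℕ → T1) (N : ℕ) (E : Set T1) :
    (emp u N E).toReal = freq (fun n => u n ∈ E) (N + 1) := by
  classical
  simp only [emp, Measure.smul_apply, Measure.finsetSum_apply, Measure.dirac_apply,
    smul_eq_mul, freq]
  rw [ENNReal.toReal_mul, ENNReal.toReal_inv, ENNReal.toReal_natCast]
  have : ∑ n ∈ range (N + 1), E.indicator (1 : T1 → ℝ≥0∞) (u n) =
      (((range (N + 1)).filter fun n => u n ∈ E).card : ℝ≥0∞) := by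
    rw [Finset.card_filter]
    push_cast
    refine Finset.sum_congr rfl fun n _ => ?_
    by_cases h : u n ∈ E <;> simp [h]
  rw [this, ENNReal.toReal_natCast]
  rw [div_eq_inv_mul]

lemma emp_integral (u : ℕ → T1) (N : ℕ) (f : T1 → ℂ) :
    ∫ x, f x ∂(emp u N) = mean (fun n => f (u n)) (N + 1) := by
  simp only [emp]
  rw [integral_smul_measure, integral_finsetSum_measure]
  · simp only [integral_dirac, mean]
    rw [ENNReal.toReal_inv, ENNReal.toReal_natCast, Complex.real_smul, div_eq_inv_mul]
    push_cast
    rfl
  · intro i _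
    exact integrable_dirac (by simp)

theorem freq_tendsto {u : ℕ → T1} (ν : ProbabilityMeasure T1)
    (h : ∀ l : ℤ, Tendsto (mean fun n => fourier l (u n)) atTop
      (𝓝 (∫ y, fourier l y ∂(ν : Measure T1))))
    {E : Set T1} (hE : (ν : Measure T1) (frontier E) = 0) :
    Tendsto (freq fun n => u n ∈ E) atTop (𝓝 ((ν : Measure T1) E).toReal) := by
  have h1 : Tendsto (empP u) atTop (𝓝 ν) := by
    rw [ProbabilityMeasure.tendsto_iff_forall_integral_rclike_tendsto ℂ]
    intro f
    have h2 := mean_cont (x := u) (c := fun _ => 1) (fun _ => by simp) (κ := 1) (by simp)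
      (ν : Measure T1) (by simpa using h) ⟨f, f.continuous⟩
    simp only [one_mul] at h2
    rw [← tendsto_add_atTop_iff_nat 1] at h2
    refine h2.congr fun N => ?_
    exact (emp_integral u N f).symm
  have h3 := ProbabilityMeasure.tendsto_measure_of_null_frontier_of_tendsto' h1 hE
  have h4 := (ENNReal.tendsto_toReal (measure_ne_top (ν : Measure T1) E)).comp h3
  rw [← tendsto_add_atTop_iff_nat 1]
  refine h4.congr fun N => ?_
  exact emp_apply u N E

end Pool.Agent.Helper84.BD
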