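import Pool.Agent.Helper84.BD.Arc

/-!
# MP_1609c3_nt: the limit law in the resonant case
-/

set_option autoImplicit false

namespace Pool.Agent.Helper84.BD

open Filter Topology MeasureTheory Finset
open scoped ENNReal

/-! ### ceilings -/

/-- the indicator function of an interval modulo one -/
lemma ind_ceil {s t : ℝ} (hst : s ≤ t) (hts : t ≤ s + 1) (x : ℝ) :
    (⌈t - x⌉ : ℝ) - ⌈s - x⌉ = Set.indicator {z : ℝ | (z : T1) ∈ arc s t} (fun _ => (1 : ℝ)) x := by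
  have h1 : ⌈s - x⌉ ≤ ⌈t - x⌉ := Int.ceil_mono (by linarith)
  have h2 : ⌈t - x⌉ ≤ ⌈s - x⌉ + 1 := by
    rw [← Int.ceil_add_one]
    exact Int.ceil_mono (by linarith)
  by_cases h : (x : T1) ∈ arc s t
  · rw [Set.indicator_of_mem (by exact h)]
    obtain ⟨k, hk1, hk2⟩ := (mem_arc s t x).1 h
    have h3 : ⌈s - x⌉ ≤ k := Int.ceil_le.2 (by linarith)
    have h4 : k < ⌈t - x⌉ := Int.lt_ceil.2 (by linarith)
    have h5 : ⌈t - x⌉ = ⌈s - x⌉ + 1 := by omega
    rw [h5]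
    push_cast
    ring
  · rw [Set.indicator_of_notMem (by exact h)]
    have h3 : ¬ ⌈s - x⌉ < ⌈t - x⌉ := by
      intro h3
      apply h
      rw [mem_arc]
      refine ⟨⌈s - x⌉, ?_, ?_⟩
      · linarith [Int.le_ceil (s - x)]
      · linarith [Int.lt_ceil.1 h3]
    have h5 : ⌈t - x⌉ = ⌈s - x⌉ := by omega
    rw [h5, sub_self]

/-- Hermite's identity for ceilings -/
lemma hermite (q : ℕ) (hq : 0 < q) (z : ℝ) :
    ∑ r ∈ range q, ⌈z - (r : ℝ) / q⌉ = ⌈(q : ℝ) * z⌉ := by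
  have hq' : (0 : ℝ) < q := by exact_mod_cast hq
  -- the base case
  have base : ∀ y : ℝ, -1 < (q : ℝ) * y → (q : ℝ) * y ≤ 0 →
      ∑ r ∈ range q, ⌈y - (r : ℝ) / q⌉ = ⌈(q : ℝ) * y⌉ := by
    intro y h1 h2
    have h3 : ⌈(q : ℝ) * y⌉ = 0 := by
      rw [Int.ceil_eq_iff]
      push_cast
      exact ⟨by linarith, h2⟩
    rw [h3]
    refine Finset.sum_eq_zero fun r hr => ?_
    rw [Int.ceil_eq_iff]
    have hr' : (r : ℝ) + 1 ≤ q := by exact_mod_cast (Finset.mem_range.1 hr)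
    have hr0 : (0 : ℝ) ≤ r := by positivity
    have e : y - (r : ℝ) / q = (q * y - r) / q := by field_simp
    push_cast
    rw [e]
    constructor
    · rw [lt_div_iff₀ hq']; linarith
    · exact div_nonpos_of_nonpos_of_nonneg (by linarith) hq'.le
  -- the step
  have step : ∀ y : ℝ, (∑ r ∈ range q, ⌈(y + 1 / q) - (r : ℝ) / q⌉) - ⌈(q : ℝ) * (y + 1 / q)⌉ =
      (∑ r ∈ range q, ⌈y - (r : ℝ) / q⌉) - ⌈(q : ℝ) * y⌉ := by
    intro y
    have e1 : ⌈(q : ℝ) * (y + 1 / q)⌉ = ⌈(q : ℝ) * y⌉ + 1 := by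
      rw [← Int.ceil_add_one]
      congr 1
      field_simp
    set f : ℕ → ℤ := fun r => ⌈(y + 1 / q) - (r : ℝ) / q⌉ with hf
    have e2 : ∀ r : ℕ, ⌈y - (r : ℝ) / q⌉ = f (r + 1) := by
      intro r
      simp only [hf]
      congr 1
      push_cast
      field_simp
      ring
    have e3 : ∑ r ∈ range q, f (r + 1) = ∑ r ∈ range q, f r + f q - f 0 := by
      have := Finset.sum_range_succ f q
      have h2 := Finset.sum_range_succ' f q
      linarith
    have e4 : f 0 = f q + 1 := by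
      simp only [hf]
      rw [← Int.ceil_add_one]
      congr 1
      field_simp
      push_cast
      ring
    simp only [e2]
    rw [e3, e1, e4]
    ring
  have step2 : ∀ (n : ℤ) (y : ℝ),
      (∑ r ∈ range q, ⌈(y + n / q) - (r : ℝ) / q⌉) - ⌈(q : ℝ) * (y + n / q)⌉ =
      (∑ r ∈ range q, ⌈y - (r : ℝ) / q⌉) - ⌈(q : ℝ) * y⌉ := by
    intro n
    induction n using Int.induction_on with
    | zero => intro y; simp
    | succ i ih =>
      intro y
      have h := step (y + i / q)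
      rw [← ih y]
      push_cast at h ⊢
      rw [← h]
      have : y + ((i : ℝ) + 1) / q = y + (i : ℝ) / q + 1 / q := by ring
      rw [this]
    | pred i ih =>
      intro y
      have h := step (y + (-(i : ℝ) - 1) / q)
      have e : y + (-(i : ℝ) - 1) / q + 1 / q = y + -(i : ℝ) / q := by ring
      rw [e] at h
      have h2 := ih y
      push_cast at h2 ⊢
      rw [← h, h2]
  have h := step2 (⌈(q : ℝ) * z⌉) (z - ⌈(q : ℝ) * z⌉ / q)
  have e : z - (⌈(q : ℝ) * z⌉ : ℝ) / q + ⌈(q : ℝ) * z⌉ / q = z := by ring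
  have hz : (q : ℝ) * (z - ⌈(q : ℝ) * z⌉ / q) = q * z - ⌈(q : ℝ) * z⌉ := by field_simp
  have hb := base (z - ⌈(q : ℝ) * z⌉ / q)
    (by rw [hz]; linarith [Int.ceil_lt_add_one ((q : ℝ) * z)])
    (by rw [hz]; linarith [Int.le_ceil ((q : ℝ) * z)])
  rw [e, hb, sub_self] at h
  linarith

/-! ### the limit law -/

/-- Lebesgue measure on `(-1/2, 1/2)` -/
noncomputable def mu0 : Measure ℝ := volume.restrict (Set.Ioo (-1 / 2 : ℝ) (1 / 2))

instance : IsProbabilityMeasure mu0 :=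
  ⟨by rw [mu0, Measure.restrict_apply_univ, Real.volume_Ioo]; norm_num⟩

/-- the limit law -/
noncomputable def nuR (q : ℕ) (Φ : ℝ → ℝ) : Measure T1 :=
  (q : ℝ≥0∞)⁻¹ • ∑ r ∈ range q, Measure.map (fun y => ((Φ y + (r : ℝ) / q : ℝ) : T1)) mu0

variable {q : ℕ} {Φ : ℝ → ℝ}

lemma aem (hΦ : AEMeasurable Φ mu0) (c : ℝ) :
    AEMeasurable (fun y => ((Φ y + c : ℝ) : T1)) mu0 :=
  coe_continuous.measurable.comp_aemeasurable (hΦ.add_const c)

lemma nuR_prob (hq : 0 < q) (hΦ : AEMeasurable Φ mu0) : IsProbabilityMeasure (nuR q Φ) := by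
  refine ⟨?_⟩
  simp only [nuR, Measure.smul_apply, Measure.finsetSum_apply, smul_eq_mul]
  have : ∀ r ∈ range q,
      Measure.map (fun y => ((Φ y + (r : ℝ) / q : ℝ) : T1)) mu0 Set.univ = 1 := by
    intro r _
    rw [Measure.map_apply_of_aemeasurable (aem hΦ _) MeasurableSet.univ]
    simp
  rw [Finset.sum_congr rfl this]
  simp only [sum_const, card_range, nsmul_eq_mul, mul_one]
  exact ENNReal.inv_mul_cancel (by exact_mod_cast hq.ne') (ENNReal.natCast_ne_top _)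

lemma sum_four (hq : 0 < q) (l : ℤ) :
    ∑ r ∈ range q, (fourier l (((r : ℝ) / q : ℝ) : T1) : ℂ) =
      if (q : ℤ) ∣ l then (q : ℂ) else 0 := by
  have hq' : (q : ℝ) ≠ 0 := by exact_mod_cast hq.ne'
  have h1 : ∀ r : ℕ, (fourier l (((r : ℝ) / q : ℝ) : T1) : ℂ) =
      (fourier l ((1 / q : ℝ) : T1) : ℂ) ^ r := by
    intro r
    rw [← four_nmul]
    congr 2
    ring
  simp only [h1]
  have h3 : ∀ k : ℤ, (l : ℝ) * (1 / q) = k ↔ l = q * k := by
    intro k
    rw [mul_one_div, div_eq_iff hq']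
    constructor
    · intro h
      have : l = k * q := by exact_mod_cast h
      rw [this, mul_comm]
    · intro h
      rw [h]
      push_cast
      ring
  split_ifs with h
  · obtain ⟨k, hk⟩ := h
    have h2 : (fourier l ((1 / q : ℝ) : T1) : ℂ) = 1 := by
      rw [four_coe, exp_int_iff]
      exact ⟨k, (h3 k).2 hk⟩
    rw [h2]
    simp
  · have h2 : (fourier l ((1 / q : ℝ) : T1) : ℂ) ≠ 1 := by
      rw [four_coe, Ne, exp_int_iff]
      rintro ⟨k, hk⟩
      exact h ⟨k, (h3 k).1 hk⟩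
    rw [geom_sum_eq h2, ← four_nmul]
    have h4 : (fourier l (((q : ℝ) * (1 / q) : ℝ) : T1) : ℂ) = 1 := by
      rw [four_coe, exp_int_iff]
      exact ⟨l, by field_simp⟩
    rw [h4, sub_self, zero_div]

lemma nuR_four (hq : 0 < q) (hΦ : AEMeasurable Φ mu0) (l : ℤ) :
    ∫ x, (fourier l x : ℂ) ∂(nuR q Φ) =
      if (q : ℤ) ∣ l then ∫ y, (fourier l ((Φ y : ℝ) : T1) : ℂ) ∂mu0 else 0 := by
  have hq' : (q : ℂ) ≠ 0 := by exact_mod_cast hq.ne'
  rw [nuR, integral_smul_measure, integral_finsetSum_measure]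
  · have h1 : ∀ r ∈ range q, ∫ x, (fourier l x : ℂ)
        ∂(Measure.map (fun y => ((Φ y + (r : ℝ) / q : ℝ) : T1)) mu0) =
        (∫ y, (fourier l ((Φ y : ℝ) : T1) : ℂ) ∂mu0) * fourier l (((r : ℝ) / q : ℝ) : T1) := by
      intro r _
      rw [integral_map (aem hΦ _) (fourier l).continuous.aestronglyMeasurable,
        ← integral_mul_const]
      refine integral_congr_ae (Eventually.of_forall fun y => ?_)
      exact four_add l ((Φ y : ℝ) : T1) (((r : ℝ) / q : ℝ) : T1)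
    rw [Finset.sum_congr rfl h1, ← Finset.mul_sum, sum_four hq]
    rw [ENNReal.toReal_inv, ENNReal.toReal_natCast, Complex.real_smul]
    split_ifs with h
    · push_cast
      field_simp
    · simp
  · intro r _
    have : IsProbabilityMeasure
        (Measure.map (fun y => ((Φ y + (r : ℝ) / q : ℝ) : T1)) mu0) :=
      Measure.isProbabilityMeasure_map (aem hΦ _)
    exact (fourier l).continuous.integrable_of_hasCompactSupport
      (HasCompactSupport.of_compactSpace _)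

lemma nuR_null (hΦ : AEMeasurable Φ mu0)
    (hc : ∀ c : ℝ, {y ∈ Set.Ioo (-1 / 2 : ℝ) (1 / 2) | Φ y = c}.Countable) (x : ℝ) :
    nuR q Φ {(x : T1)} = 0 := by
  simp only [nuR, Measure.smul_apply, Measure.finsetSum_apply, smul_eq_mul]
  have : ∀ r ∈ range q,
      Measure.map (fun y => ((Φ y + (r : ℝ) / q : ℝ) : T1)) mu0 {(x : T1)} = 0 := by
    intro r _
    rw [Measure.map_apply_of_aemeasurable (aem hΦ _) (measurableSet_singleton _)]
    have h1 : ((fun y => ((Φ y + (r : ℝ) / q : ℝ) : T1)) ⁻¹' {(x : T1)}) ∩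
        Set.Ioo (-1 / 2 : ℝ) (1 / 2) ⊆
        ⋃ k : ℤ, {y ∈ Set.Ioo (-1 / 2 : ℝ) (1 / 2) | Φ y = x - k - (r : ℝ) / q} := by
      rintro y ⟨hy1, hy2⟩
      simp only [Set.mem_preimage, Set.mem_singleton_iff] at hy1
      obtain ⟨k, hk⟩ := (coe_eq_coe_iff' _ _).1 hy1
      rw [Set.mem_iUnion]
      exact ⟨k, hy2, by linarith⟩
    have h2 : mu0 (((fun y => ((Φ y + (r : ℝ) / q : ℝ) : T1)) ⁻¹' {(x : T1)}) ∩
        Set.Ioo (-1 / 2 : ℝ) (1 / 2)) = 0 := by
      have h3 : volume (((fun y => ((Φ y + (r : ℝ) / q : ℝ) : T1)) ⁻¹' {(x : T1)}) ∩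
        Set.Ioo (-1 / 2 : ℝ) (1 / 2)) = 0 :=
        (Set.Countable.mono h1 (Set.countable_iUnion fun k => hc _)).measure_zero _
      exact le_antisymm ((Measure.restrict_apply_le _ _).trans h3.le) bot_le
    have h4 : mu0 (Set.Ioo (-1 / 2 : ℝ) (1 / 2))ᶜ = 0 := by
      rw [mu0, Measure.restrict_apply measurableSet_Ioo.compl, Set.compl_inter_self,
        measure_empty]
    refine le_antisymm ?_ bot_le
    calc mu0 ((fun y => ((Φ y + (r : ℝ) / q : ℝ) : T1)) ⁻¹' {(x : T1)}) ≤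
        mu0 ((((fun y => ((Φ y + (r : ℝ) / q : ℝ) : T1)) ⁻¹' {(x : T1)}) ∩
        Set.Ioo (-1 / 2 : ℝ) (1 / 2)) ∪ (Set.Ioo (-1 / 2 : ℝ) (1 / 2))ᶜ) := by
          apply measure_mono
          intro y hy
          by_cases h : y ∈ Set.Ioo (-1 / 2 : ℝ) (1 / 2)
          · exact Or.inl ⟨hy, h⟩
          · exact Or.inr h
      _ ≤ _ := measure_union_le _ _
      _ = 0 := by rw [h2, h4, add_zero]
  rw [Finset.sum_eq_zero this, mul_zero]

lemma nuR_arc (hq : 0 < q) (hΦ : AEMeasurable Φ mu0) {s t : ℝ} (hst : s ≤ t) (hts : t ≤ s + 1) :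
    (nuR q Φ (arc s t)).toReal =
      (1 / q) * ∫ y, ((⌈(q : ℝ) * (t - Φ y)⌉ : ℝ) - ⌈(q : ℝ) * (s - Φ y)⌉) ∂mu0 := by
  simp only [nuR, Measure.smul_apply, Measure.finsetSum_apply, smul_eq_mul]
  rw [ENNReal.toReal_mul, ENNReal.toReal_inv, ENNReal.toReal_natCast]
  have hnull : ∀ c : ℝ, NullMeasurableSet ((fun y => ((Φ y + c : ℝ) : T1)) ⁻¹' (arc s t)) mu0 :=
    fun c => (aem hΦ c).nullMeasurableSet_preimage (measurableSet_arc s t)
  have h1 : ∀ r ∈ range q,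
      (Measure.map (fun y => ((Φ y + (r : ℝ) / q : ℝ) : T1)) mu0 (arc s t)) =
      mu0 ((fun y => ((Φ y + (r : ℝ) / q : ℝ) : T1)) ⁻¹' (arc s t)) := by
    intro r _
    rw [Measure.map_apply_of_aemeasurable (aem hΦ _) (measurableSet_arc s t)]
  rw [Finset.sum_congr rfl h1, ENNReal.toReal_sum (fun r _ => measure_ne_top _ _)]
  have h2 : ∀ r ∈ range q,
      (mu0 ((fun y => ((Φ y + (r : ℝ) / q : ℝ) : T1)) ⁻¹' (arc s t))).toReal =
      ∫ y, ((⌈t - (Φ y + (r : ℝ) / q)⌉ : ℝ) - ⌈s - (Φ y + (r : ℝ) / q)⌉) ∂mu0 := by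
    intro r _
    have h3 : ∀ y, ((⌈t - (Φ y + (r : ℝ) / q)⌉ : ℝ) - ⌈s - (Φ y + (r : ℝ) / q)⌉) =
        ((fun y => ((Φ y + (r : ℝ) / q : ℝ) : T1)) ⁻¹' (arc s t)).indicator
          (fun _ => (1 : ℝ)) y := by
      intro y
      rw [ind_ceil hst hts]
      rfl
    simp only [h3]
    rw [integral_indicator₀ (hnull _)]
    simp [Measure.real]
  rw [Finset.sum_congr rfl h2, ← integral_finsetSum]
  · rw [one_div]
    congr 1
    refine integral_congr_ae (Eventually.of_forall fun y => ?_)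
    show ∑ r ∈ range q, ((⌈t - (Φ y + (r : ℝ) / q)⌉ : ℝ) - ⌈s - (Φ y + (r : ℝ) / q)⌉) =
      (⌈(q : ℝ) * (t - Φ y)⌉ : ℝ) - ⌈(q : ℝ) * (s - Φ y)⌉
    rw [← hermite q hq, ← hermite q hq]
    push_cast
    rw [← Finset.sum_sub_distrib]
    refine Finset.sum_congr rfl fun r _ => ?_
    rw [sub_sub, sub_sub]
  · intro r _
    have h3 : ∀ y, ((⌈t - (Φ y + (r : ℝ) / q)⌉ : ℝ) - ⌈s - (Φ y + (r : ℝ) / q)⌉) =
        ((fun y => ((Φ y + (r : ℝ) / q : ℝ) : T1)) ⁻¹' (arc s t)).indicator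
          (fun _ => (1 : ℝ)) y := by
      intro y
      rw [ind_ceil hst hts]
      rfl
    simp only [h3]
    exact (integrable_const _).indicator₀ (hnull _)

variable {g : T1 → ℝ} {y₀ : T1} {α β : ℝ}

/-- **resonant case** -/
theorem freq_res (hg : ContinuousOn g {y₀}ᶜ) (hβ : Irrational β) (hq : 0 < q) (j0 p0 : ℤ)
    (h0 : (q : ℝ) * α = p0 + j0 * β)
    (h : ∀ l j p : ℤ, (l : ℝ) * α + j * β = p → (q : ℤ) ∣ l)
    (hΦ : ∀ y ∈ Set.Ioo (-1 / 2 : ℝ) (1 / 2), (q : ℝ) * Φ y = j0 * y + q * g (y : T1))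
    (hΦm : AEMeasurable Φ mu0)
    (hc : ∀ c : ℝ, {y ∈ Set.Ioo (-1 / 2 : ℝ) (1 / 2) | Φ y = c}.Countable)
    {s t : ℝ} (hst : s ≤ t) (hts : t ≤ s + 1) :
    Tendsto (freq (Hit (fun n => n * α + g ((n * β : ℝ) : T1)) s t)) atTop
      (𝓝 ((1 / q) * ∫ y, ((⌈(q : ℝ) * (t - Φ y)⌉ : ℝ) - ⌈(q : ℝ) * (s - Φ y)⌉) ∂mu0)) := by
  have hq' : (q : ℝ) ≠ 0 := by exact_mod_cast hq.ne'
  have h1 := freq_tendsto (u := fun n : ℕ => ((n * α + g ((n * β : ℝ) : T1) : ℝ) : T1))
    ⟨nuR q Φ, nuR_prob hq hΦm⟩ (by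
      intro l
      show Tendsto _ _ (𝓝 (∫ y, (fourier l y : ℂ) ∂(nuR q Φ)))
      rw [nuR_four hq hΦm]
      split_ifs with hl
      · obtain ⟨m, hm⟩ := hl
        have e1 : (l : ℝ) * α = ((m * p0 : ℤ) : ℝ) + ((m * j0 : ℤ) : ℝ) * β := by
          rw [hm]
          push_cast
          linear_combination (m : ℝ) * h0
        have h2 := weyl_res hg hβ l (m * j0) (m * p0) e1
        have e2 : (∫ y : T1, (fourier (m * j0) y * fourier l ((g y : ℝ) : T1) : ℂ)) =
            ∫ y, (fourier l ((Φ y : ℝ) : T1) : ℂ) ∂mu0 := by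
          rw [← UnitAddCircle.integral_preimage (-1 / 2)]
          have e3 : (-1 / 2 : ℝ) + 1 = 1 / 2 := by norm_num
          rw [e3, integral_Ioc_eq_integral_Ioo, mu0]
          refine setIntegral_congr_fun measurableSet_Ioo fun y hy => ?_
          show (fourier (m * j0) (y : T1) * fourier l ((g (y : T1) : ℝ) : T1) : ℂ) =
            fourier l ((Φ y : ℝ) : T1)
          rw [four_coe, four_coe, four_coe, ← Complex.exp_add]
          congr 1
          have e4 := hΦ y hy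
          have e5 : (l : ℝ) * Φ y = ((m * j0 : ℤ) : ℝ) * y + l * g (y : T1) := by
            rw [hm]
            push_cast
            linear_combination (m : ℝ) * e4
          rw [e5]
          push_cast
          ring
        rw [← e2]
        exact h2
      · exact weyl_zero hg hβ l fun j p hjp => hl (h l j p hjp)) (E := arc s t) (by
      show (nuR q Φ) _ = 0
      refine measure_mono_null (frontier_arc hst) ?_
      have : ({(s : T1), (t : T1)} : Set T1) = {(s : T1)} ∪ {(t : T1)} := rfl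
      rw [this]
      exact measure_union_null (nuR_null hΦm hc s) (nuR_null hΦm hc t))
  have h2 : (nuR q Φ (arc s t)).toReal = _ := nuR_arc hq hΦm hst hts
  change Tendsto _ _ (𝓝 (nuR q Φ (arc s t)).toReal) at h1
  rw [h2] at h1
  have e : freq (Hit (fun n => n * α + g ((n * β : ℝ) : T1)) s t) =
      freq (fun n : ℕ => ((n * α + g ((n * β : ℝ) : T1) : ℝ) : T1) ∈ arc s t) :=
    freq_congr fun n => (mem_arc s t _).symm
  rw [e]
  exact h1

end Pool.Agent.Helper84.BD
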